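import Mathlib

open Matrix

namespace Pool.Agent.Results.MP_146573_gt.FlatCounterexample

noncomputable section

/-! Singular cohomology with rational coefficients, from singular cochains. -/

/-- Singular `n`-simplices of `X`. -/
def Simplex (X : Type) [TopologicalSpace X] (n : ℕ) : Type := C(stdSimplex ℝ (Fin (n + 1)), X)

/-- The `i`-th face of a singular `(n+1)`-simplex. -/
def face {X : Type} [TopologicalSpace X] {n : ℕ} (i : Fin (n + 2)) (σ : Simplex X (n + 1)) :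
    Simplex X n :=
  ContinuousMap.comp σ ⟨stdSimplex.map i.succAbove, stdSimplex.continuous_map _⟩

/-- The singular coboundary of a rational cochain. -/
def cobd {X : Type} [TopologicalSpace X] {n : ℕ} (c : Simplex X n → ℚ) (σ : Simplex X (n + 1)) :
    ℚ :=
  ∑ i : Fin (n + 2), (-1) ^ (i : ℕ) * c (face i σ)

/-- Singular cocycles. -/
def IsCocycle {X : Type} [TopologicalSpace X] {n : ℕ} (c : Simplex X n → ℚ) : Prop :=
  ∀ σ, cobd c σ = 0

/-- Two cochains are cohomologous if they differ by a coboundary (in degree `0`: if they are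
equal). -/
def Cohomologous {X : Type} [TopologicalSpace X] : {n : ℕ} → (c c' : Simplex X n → ℚ) → Prop
  | 0, c, c' => c = c'
  | _ + 1, c, c' => ∃ b, ∀ σ, c σ - c' σ = cobd b σ

/-- The singular cohomology `H^n(X; ℚ)`: cocycles modulo coboundaries. -/
def Coh (X : Type) [TopologicalSpace X] (n : ℕ) : Type :=
  Quot fun c c' : {c : Simplex X n → ℚ // IsCocycle c} => Cohomologous c.1 c'.1

lemma pull_cocycle {X Y : Type} [TopologicalSpace X] [TopologicalSpace Y] (f : C(X, Y)) {n : ℕ}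
    {c : Simplex Y n → ℚ} (hc : IsCocycle c) :
    IsCocycle (X := X) fun σ => c (ContinuousMap.comp f σ) :=
  fun σ => hc (ContinuousMap.comp f σ)

lemma pull_cohomologous {X Y : Type} [TopologicalSpace X] [TopologicalSpace Y] (f : C(X, Y)) :
    ∀ {n : ℕ} {c c' : Simplex Y n → ℚ}, Cohomologous c c' →
      Cohomologous (X := X) (fun σ => c (ContinuousMap.comp f σ))
        (fun σ => c' (ContinuousMap.comp f σ))
  | 0, _, _, h => by
    have h' : _ = _ := h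
    subst h'
    exact (rfl : _ = _)
  | _ + 1, _, _, ⟨b, hb⟩ => ⟨fun σ => b (ContinuousMap.comp f σ), fun σ => hb _⟩

/-- The pullback map in singular cohomology. -/
def cohMap {X Y : Type} [TopologicalSpace X] [TopologicalSpace Y] (f : C(X, Y)) (n : ℕ) :
    Coh Y n → Coh X n :=
  Quot.map (fun c => ⟨fun σ => c.1 (ContinuousMap.comp f σ), pull_cocycle f c.2⟩)
    fun _ _ h => pull_cohomologous f h

/-! The Borel construction for a group of unitary matrices. -/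

variable {ι : Type} [Fintype ι] [DecidableEq ι]

/-- The space of injective linear maps `T : ℂ^ι → ℂ^ℕ`, as matrices with rows indexed by `ℕ`, with
the topology of entrywise convergence. It is contractible, the unitary group acts freely on it by
`g • T = T g⁻¹`, and it is a model of the universal bundle. -/
def EU (ι : Type) [Fintype ι] : Type :=
  {T : ℕ → ι → ℂ // ∀ v : ι → ℂ, (∀ n, T n ⬝ᵥ v = 0) → v = 0}

instance : TopologicalSpace (EU ι) := instTopologicalSpaceSubtype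

lemma EU_smul_inj (g : Matrix.unitaryGroup ι ℂ) (T : EU ι) (v : ι → ℂ)
    (h : ∀ n, (T.1 n ᵥ* (g⁻¹).1) ⬝ᵥ v = 0) : v = 0 := by
  have h1 : (g⁻¹).1 *ᵥ v = 0 := T.2 _ fun n => by rw [Matrix.dotProduct_mulVec]; exact h n
  have h2 : g.1 *ᵥ ((g⁻¹).1 *ᵥ v) = v := by
    rw [Matrix.mulVec_mulVec, ← Matrix.UnitaryGroup.mul_val, mul_inv_cancel]
    exact Matrix.one_mulVec v
  rw [← h2, h1, Matrix.mulVec_zero]

/-- `g • T = T g⁻¹`. -/
def actE (g : Matrix.unitaryGroup ι ℂ) (T : EU ι) : EU ι :=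
  ⟨fun n => T.1 n ᵥ* (g⁻¹).1, EU_smul_inj g T⟩

/-- The cotangent bundle `T^*A = A × A^*` of `A = ℂ^ι`; covectors are row vectors. -/
def TA (ι : Type) : Type := (ι → ℂ) × (ι → ℂ)

instance : TopologicalSpace (TA ι) := instTopologicalSpaceProd

/-- The action of the unitary group on `T^*A`: `g • (a, b) = (g a, b g⁻¹)`. -/
def actA (g : Matrix.unitaryGroup ι ℂ) (p : TA ι) : TA ι := (g.1 *ᵥ p.1, p.2 ᵥ* (g⁻¹).1)

/-- The homotopy quotient (Borel construction) `EU ×_G S` of a `G`-invariant subspace `S` of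
`T^*A`: the quotient of `EU × S` by the diagonal action of `G`. -/
def Borel (G : Subgroup (Matrix.unitaryGroup ι ℂ)) (S : Set (TA ι)) : Type :=
  Quot fun p q : EU ι × S => ∃ g ∈ G, q.1 = actE g p.1 ∧ (q.2 : TA ι) = actA g p.2

instance (G : Subgroup (Matrix.unitaryGroup ι ℂ)) (S : Set (TA ι)) :
    TopologicalSpace (Borel G S) := instTopologicalSpaceQuot

lemma incl_continuous (S : Set (TA ι)) :
    Continuous fun p : EU ι × S => ((p.1, ⟨p.2.1, trivial⟩) : EU ι × (Set.univ : Set (TA ι))) :=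
  continuous_fst.prodMk ((continuous_subtype_val.comp continuous_snd).subtype_mk _)

/-- The map of Borel constructions induced by the inclusion `S ⊆ T^*A`. -/
def borelIncl (G : Subgroup (Matrix.unitaryGroup ι ℂ)) (S : Set (TA ι)) :
    C(Borel G S, Borel G Set.univ) where
  toFun := Quot.map (fun p => (p.1, ⟨p.2.1, trivial⟩)) fun _ _ h => h
  continuous_toFun := continuous_quot_lift _ (continuous_quot_mk.comp (incl_continuous S))

/-! The flat hyperkahler structure of `T^*A` and hyperhamiltonian actions. -/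

/-- The flat metric: the real part of the standard hermitian product. -/
def gR (u v : TA ι) : ℝ := (star u.1 ⬝ᵥ v.1 + star u.2 ⬝ᵥ v.2).re

/-- The complex structure `I (a, b) = (√-1 a, √-1 b)`. -/
def opI (u : TA ι) : TA ι := (fun i => Complex.I * u.1 i, fun i => Complex.I * u.2 i)

/-- The complex structure `J (a, b) = (- b^*, a^*)`. -/
def opJ (u : TA ι) : TA ι := (fun i => -star (u.2 i), fun i => star (u.1 i))

/-- The three complex structures `I`, `J`, `K = I J`. -/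
def cs (a : Fin 3) (u : TA ι) : TA ι :=
  if a = 0 then opI u else if a = 1 then opJ u else opI (opJ u)

/-- The line through `p` in the direction `v`. -/
def line (p v : TA ι) (t : ℝ) : TA ι := (fun i => p.1 i + t * v.1 i, fun i => p.2 i + t * v.2 i)

/-- The Lie algebra of `G`, as the set of velocities at `1` of curves in `G` through `1`
(matrices `X` that are derivatives at `0`, entry by entry, of curves in `G`). -/
def lieAlg (G : Subgroup (Matrix.unitaryGroup ι ℂ)) : Set (Matrix ι ι ℂ) :=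
  {X | ∃ γ : ℝ → Matrix.unitaryGroup ι ℂ, (∀ s, γ s ∈ G) ∧ γ 0 = 1 ∧
    ∀ i j, HasDerivAt (fun s => (γ s).1 i j) (X i j) 0}

/-- The vector field on `T^*A` generated by `X` in the Lie algebra. -/
def inf (X : Matrix ι ι ℂ) (p : TA ι) : TA ι := (X *ᵥ p.1, -(p.2 ᵥ* X))

/-- The action of `G` preserves the metric and the three complex structures, and `μ 0, μ 1, μ 2`
are equivariant moment maps for the Kahler forms `ω_a (u, v) = g (I_a u, v)`: `μ a X` is the
component along `X` in the Lie algebra, it is linear in `X`, its derivative at `p` in the direction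
`v` is `ω_a (X p, v)`, and `μ a (Ad_g X) (g p) = μ a X p`. -/
def IsHyperHamiltonian (G : Subgroup (Matrix.unitaryGroup ι ℂ))
    (μ : Fin 3 → Matrix ι ι ℂ → TA ι → ℝ) : Prop :=
  (∀ g ∈ G, ∀ u v : TA ι, gR (actA g u) (actA g v) = gR u v) ∧
  (∀ g ∈ G, ∀ a, ∀ u : TA ι, actA g (cs a u) = cs a (actA g u)) ∧
  (∀ a, ∀ X ∈ lieAlg G, ∀ Y ∈ lieAlg G, ∀ (r s : ℝ) (p : TA ι),
    μ a (r • X + s • Y) p = r * μ a X p + s * μ a Y p) ∧
  (∀ a, ∀ X ∈ lieAlg G, ∀ p v : TA ι,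
    HasDerivAt (fun t : ℝ => μ a X (line p v t)) (gR (cs a (inf X p)) v) 0) ∧
  (∀ a, ∀ g ∈ G, ∀ X ∈ lieAlg G, ∀ p, μ a (g.1 * X * (g⁻¹).1) (actA g p) = μ a X p)

/-- `e` is an orthonormal basis of the Lie algebra for the invariant inner product
`⟨X, Y⟩ = Re tr (X Y^*)`. -/
def IsOrthonormalBasis (G : Subgroup (Matrix.unitaryGroup ι ℂ)) {d : ℕ}
    (e : Fin d → Matrix ι ι ℂ) : Prop :=
  (∀ j, e j ∈ lieAlg G) ∧ (∀ j k, (e j * (e k)ᴴ).trace.re = if j = k then 1 else 0) ∧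
    ∀ X ∈ lieAlg G, ∃ c : Fin d → ℝ, X = ∑ j, c j • e j

/-- The function `f = ‖μ‖² = ‖μ_I‖² + ‖μ_J‖² + ‖μ_K‖²`, computed in an orthonormal basis. -/
def normSqMoment (μ : Fin 3 → Matrix ι ι ℂ → TA ι → ℝ) {d : ℕ} (e : Fin d → Matrix ι ι ℂ)
    (p : TA ι) : ℝ :=
  ∑ a, ∑ j, μ a (e j) p ^ 2

/-- `w` is the gradient of `f` at `p` for the flat metric. -/
def IsGradient (f : TA ι → ℝ) (p w : TA ι) : Prop :=
  ∀ v : TA ι, HasDerivAt (fun t : ℝ => f (line p v t)) (gR w v) 0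

/-- `c` restricted to `[0, T)` is a trajectory of the negative gradient flow of `f`. -/
def IsTrajectory (f : TA ι → ℝ) (T : ℝ) (c : ℝ → TA ι) : Prop :=
  ∀ t, 0 ≤ t → t < T → ∃ w : TA ι, IsGradient f (c t) w ∧
    (∀ i, HasDerivWithinAt (fun s => (c s).1 i) (-(w.1 i)) (Set.Ici 0) t) ∧
    ∀ i, HasDerivWithinAt (fun s => (c s).2 i) (-(w.2 i)) (Set.Ici 0) t

/-- The zero level set of the hyperkahler moment map. -/
def zeroLevel (G : Subgroup (Matrix.unitaryGroup ι ℂ)) (μ : Fin 3 → Matrix ι ι ℂ → TA ι → ℝ) :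
    Set (TA ι) :=
  {p | ∀ a, ∀ X ∈ lieAlg G, μ a X p = 0}

/-- The Kirwan map in degree `k`: restriction from `H^k_G(X; ℚ)` to `H^k_G(μ⁻¹(0); ℚ)`, for
`X = T^*A`. -/
def kirwan (G : Subgroup (Matrix.unitaryGroup ι ℂ)) (μ : Fin 3 → Matrix ι ι ℂ → TA ι → ℝ)
    (k : ℕ) : Coh (Borel G (Set.univ : Set (TA ι))) k → Coh (Borel G (zeroLevel G μ)) k :=
  cohMap (borelIncl G (zeroLevel G μ)) k


/-! Moment map computations. -/

/-- The real moment map of `T^*A` normalised by `μ(0) = 0`, evaluated on `X`: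
`(√-1 / 2) (a^* X a - b X b^*)`. -/
def muR (X : Matrix ι ι ℂ) (p : TA ι) : ℝ :=
  (Complex.I / 2 * (star p.1 ⬝ᵥ (X *ᵥ p.1) - p.2 ⬝ᵥ (X *ᵥ star p.2))).re

/-- The complex moment map of `T^*A`, evaluated on `X`: `b X a`. -/
def muC (X : Matrix ι ι ℂ) (p : TA ι) : ℂ := p.2 ⬝ᵥ (X *ᵥ p.1)

lemma hasDerivAt_quad (c0 c1 c2 : ℝ) : HasDerivAt (fun t : ℝ => c0 + t * c1 + t ^ 2 * c2) c1 0 := by
  have h1 : HasDerivAt (fun t : ℝ => t * c1) c1 0 := by
    simpa using (hasDerivAt_id (0 : ℝ)).mul_const c1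
  have h2 : HasDerivAt (fun t : ℝ => t ^ 2 * c2) 0 0 := by
    simpa using (hasDerivAt_pow 2 (0 : ℝ)).mul_const c2
  have h3 := ((hasDerivAt_const (0 : ℝ) c0).fun_add h1).fun_add h2
  simpa using h3

lemma lieAlg_skew (G : Subgroup (Matrix.unitaryGroup ι ℂ)) {X : Matrix ι ι ℂ}
    (hX : X ∈ lieAlg G) : Xᴴ = -X := by
  obtain ⟨γ, h1, h2, h3⟩ := hX
  have h0 : ∀ i j, (γ 0).1 i j = (1 : Matrix ι ι ℂ) i j := by
    intro i j
    rw [h2]
    rfl
  ext i j
  have hu : (fun s => ∑ k, (γ s).1 j k * star ((γ s).1 i k)) = fun _ => (1 : Matrix ι ι ℂ) j i := by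
    funext s
    have := Matrix.mem_unitaryGroup_iff.1 (γ s).2
    have := congrFun (congrFun this j) i
    rw [Matrix.mul_apply] at this
    exact this
  have hconj : ∀ k, HasDerivAt (fun s => star ((γ s).1 i k)) (star (X i k)) 0 := by
    intro k
    exact (h3 i k).star
  have hd : HasDerivAt (fun s => ∑ k, (γ s).1 j k * star ((γ s).1 i k))
      (∑ k, (X j k * star ((γ 0).1 i k) + (γ 0).1 j k * star (X i k))) 0 :=
    HasDerivAt.fun_sum fun k _ => (h3 j k).fun_mul (hconj k)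
  rw [hu] at hd
  have h4 := (hasDerivAt_const (0 : ℝ) ((1 : Matrix ι ι ℂ) j i)).unique hd
  have h5 : ∑ k, (X j k * star ((γ 0).1 i k) + (γ 0).1 j k * star (X i k)) = X j i + star (X i j) := by
    rw [Finset.sum_add_distrib]
    congr 1
    · rw [Finset.sum_eq_single i]
      · rw [h0, Matrix.one_apply_eq]
        simp
      · intro k _ hk
        rw [h0, Matrix.one_apply_ne hk.symm]
        simp
      · intro h
        exact absurd (Finset.mem_univ i) h
    · rw [Finset.sum_eq_single j]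
      · rw [h0, Matrix.one_apply_eq]
        simp
      · intro k _ hk
        rw [h0, Matrix.one_apply_ne hk.symm]
        simp
      · intro h
        exact absurd (Finset.mem_univ j) h
  rw [h5] at h4
  rw [Matrix.conjTranspose_apply, Matrix.neg_apply]
  have h6 : star (X j i) + X i j = 0 := by
    have := congrArg star h4
    simpa using this.symm
  linear_combination h6

lemma star_dot_mulVec {X : Matrix ι ι ℂ} (hX : Xᴴ = -X) (a v : ι → ℂ) :
    star a ⬝ᵥ (X *ᵥ v) = -star (star v ⬝ᵥ (X *ᵥ a)) := by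
  have h1 : star (star v ⬝ᵥ (X *ᵥ a)) = star (X *ᵥ a) ⬝ᵥ v := by
    rw [← Matrix.star_dotProduct]
  rw [h1, Matrix.star_mulVec, ← Matrix.dotProduct_mulVec, hX, Matrix.neg_mulVec, dotProduct_neg,
    neg_neg]

lemma line_fst (p v : TA ι) (t : ℝ) : (line p v t).1 = p.1 + (t : ℂ) • v.1 := rfl

lemma line_snd (p v : TA ι) (t : ℝ) : (line p v t).2 = p.2 + (t : ℂ) • v.2 := rfl

lemma star_line (u v : ι → ℂ) (t : ℝ) : star (u + (t : ℂ) • v) = star u + (t : ℂ) • star v := by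
  funext i
  simp

lemma muR_line {X : Matrix ι ι ℂ} (hX : Xᴴ = -X) (p v : TA ι) (t : ℝ) :
    muR X (line p v t) = muR X p + t * gR (opI (inf X p)) v + t ^ 2 * muR X v := by
  have hz := star_dot_mulVec hX p.1 v.1
  have hy := star_dot_mulVec hX (star p.2) (star v.2)
  have g1 : gR (opI (inf X p)) v
      = (-Complex.I * star (star v.1 ⬝ᵥ (X *ᵥ p.1)) - Complex.I * (v.2 ⬝ᵥ (X *ᵥ star p.2))).re := by
    have e1 : star (opI (inf X p)).1 ⬝ᵥ v.1 = -Complex.I * star (star v.1 ⬝ᵥ (X *ᵥ p.1)) := by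
      have : star (opI (inf X p)).1 = (-Complex.I) • star (X *ᵥ p.1) := by
        funext i
        show star (Complex.I * (X *ᵥ p.1) i) = (-Complex.I) * star ((X *ᵥ p.1) i)
        rw [star_mul', Complex.star_def, Complex.conj_I]
      rw [this, smul_dotProduct, smul_eq_mul, ← Matrix.star_dotProduct]
    have e2 : star (opI (inf X p)).2 ⬝ᵥ v.2 = -Complex.I * (v.2 ⬝ᵥ (X *ᵥ star p.2)) := by
      have : star (opI (inf X p)).2 = Complex.I • star (p.2 ᵥ* X) := by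
        funext i
        show star (Complex.I * (-(p.2 ᵥ* X) i)) = Complex.I * star ((p.2 ᵥ* X) i)
        rw [star_mul', Complex.star_def, Complex.conj_I, map_neg]
        ring
      rw [this, smul_dotProduct, smul_eq_mul, Matrix.star_vecMul, hX, Matrix.neg_mulVec,
        neg_dotProduct, dotProduct_comm]
      ring
    rw [gR, e1, e2]
    congr 1
    ring
  rw [star_star, star_star] at hy
  rw [g1, muR, muR, muR, line_fst, line_snd, star_line, star_line]
  simp only [Matrix.mulVec_add, Matrix.mulVec_smul, dotProduct_add, add_dotProduct,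
    smul_dotProduct, dotProduct_smul, smul_eq_mul]
  rw [hz, hy]
  generalize star v.1 ⬝ᵥ (X *ᵥ p.1) = z
  generalize v.2 ⬝ᵥ (X *ᵥ star p.2) = y
  generalize star p.1 ⬝ᵥ (X *ᵥ p.1) = a0
  generalize star v.1 ⬝ᵥ (X *ᵥ v.1) = a1
  generalize p.2 ⬝ᵥ (X *ᵥ star p.2) = b0
  generalize v.2 ⬝ᵥ (X *ᵥ star v.2) = b1
  simp [Complex.mul_re, Complex.mul_im]
  ring

lemma muR_deriv {X : Matrix ι ι ℂ} (hX : Xᴴ = -X) (p v : TA ι) :
    HasDerivAt (fun t : ℝ => muR X (line p v t)) (gR (opI (inf X p)) v) 0 := by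
  have h : (fun t : ℝ => muR X (line p v t))
      = fun t : ℝ => muR X p + t * gR (opI (inf X p)) v + t ^ 2 * muR X v := by
    funext t
    exact muR_line hX p v t
  rw [h]
  exact hasDerivAt_quad _ _ _

lemma muC_line (X : Matrix ι ι ℂ) (p v : TA ι) (t : ℝ) :
    muC X (line p v t) = muC X p + t * (v.2 ⬝ᵥ (X *ᵥ p.1) + p.2 ⬝ᵥ (X *ᵥ v.1)) + t ^ 2 * muC X v := by
  rw [muC, muC, muC, line_fst, line_snd]
  simp only [Matrix.mulVec_add, Matrix.mulVec_smul, dotProduct_add, add_dotProduct,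
    smul_dotProduct, dotProduct_smul, smul_eq_mul]
  ring

lemma gR_J (X : Matrix ι ι ℂ) (p v : TA ι) :
    gR (opJ (inf X p)) v = (v.2 ⬝ᵥ (X *ᵥ p.1) + p.2 ⬝ᵥ (X *ᵥ v.1)).re := by
  have e1 : star (opJ (inf X p)).1 = p.2 ᵥ* X := by
    funext i
    show star (-star (-(p.2 ᵥ* X) i)) = (p.2 ᵥ* X) i
    simp
  have e2 : star (opJ (inf X p)).2 = X *ᵥ p.1 := by
    funext i
    show star (star ((X *ᵥ p.1) i)) = (X *ᵥ p.1) i
    simp
  rw [gR, e1, e2, ← Matrix.dotProduct_mulVec, dotProduct_comm (X *ᵥ p.1)]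
  congr 1
  ring

lemma gR_K (X : Matrix ι ι ℂ) (p v : TA ι) :
    gR (opI (opJ (inf X p))) v = (v.2 ⬝ᵥ (X *ᵥ p.1) + p.2 ⬝ᵥ (X *ᵥ v.1)).im := by
  have e1 : star (opI (opJ (inf X p))).1 = (-Complex.I) • (p.2 ᵥ* X) := by
    funext i
    show star (Complex.I * (-star (-(p.2 ᵥ* X) i))) = (-Complex.I) * (p.2 ᵥ* X) i
    rw [star_mul', Complex.star_def, Complex.conj_I]
    simp
  have e2 : star (opI (opJ (inf X p))).2 = (-Complex.I) • (X *ᵥ p.1) := by
    funext i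
    show star (Complex.I * star ((X *ᵥ p.1) i)) = (-Complex.I) * (X *ᵥ p.1) i
    rw [star_mul', Complex.star_def, Complex.conj_I]
    simp
  rw [gR, e1, e2, smul_dotProduct, smul_dotProduct, ← Matrix.dotProduct_mulVec,
    dotProduct_comm (X *ᵥ p.1)]
  simp
  ring

lemma muC_deriv_re (X : Matrix ι ι ℂ) (p v : TA ι) :
    HasDerivAt (fun t : ℝ => (muC X (line p v t)).re) (gR (opJ (inf X p)) v) 0 := by
  have h : (fun t : ℝ => (muC X (line p v t)).re)
      = fun t : ℝ => (muC X p).re + t * gR (opJ (inf X p)) v + t ^ 2 * (muC X v).re := by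
    funext t
    rw [muC_line, gR_J]
    generalize v.2 ⬝ᵥ (X *ᵥ p.1) + p.2 ⬝ᵥ (X *ᵥ v.1) = z
    simp [pow_two]
  rw [h]
  exact hasDerivAt_quad _ _ _

lemma muC_deriv_im (X : Matrix ι ι ℂ) (p v : TA ι) :
    HasDerivAt (fun t : ℝ => (muC X (line p v t)).im) (gR (opI (opJ (inf X p))) v) 0 := by
  have h : (fun t : ℝ => (muC X (line p v t)).im)
      = fun t : ℝ => (muC X p).im + t * gR (opI (opJ (inf X p))) v + t ^ 2 * (muC X v).im := by
    funext t
    rw [muC_line, gR_K]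
    generalize v.2 ⬝ᵥ (X *ᵥ p.1) + p.2 ⬝ᵥ (X *ᵥ v.1) = z
    simp [pow_two]
  rw [h]
  exact hasDerivAt_quad _ _ _

lemma inv_val_star (g : Matrix.unitaryGroup ι ℂ) : (g⁻¹).1 = (g.1)ᴴ := rfl

lemma gR_actA (g : Matrix.unitaryGroup ι ℂ) (u v : TA ι) : gR (actA g u) (actA g v) = gR u v := by
  have h1 : (g.1)ᴴ * g.1 = 1 := Matrix.mem_unitaryGroup_iff'.1 g.2
  rw [gR, gR]
  show (star (g.1 *ᵥ u.1) ⬝ᵥ (g.1 *ᵥ v.1)
    + star (u.2 ᵥ* (g.1)ᴴ) ⬝ᵥ (v.2 ᵥ* (g.1)ᴴ)).re = _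
  congr 2
  · rw [Matrix.star_mulVec, ← Matrix.dotProduct_mulVec, Matrix.mulVec_mulVec, h1,
      Matrix.one_mulVec]
  · rw [Matrix.star_vecMul, Matrix.conjTranspose_conjTranspose, dotProduct_comm,
      ← Matrix.dotProduct_mulVec, Matrix.mulVec_mulVec, h1, Matrix.one_mulVec, dotProduct_comm]

lemma actA_opI (g : Matrix.unitaryGroup ι ℂ) (u : TA ι) : actA g (opI u) = opI (actA g u) := by
  apply Prod.ext
  · show g.1 *ᵥ (Complex.I • u.1) = Complex.I • (g.1 *ᵥ u.1)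
    rw [Matrix.mulVec_smul]
  · show (Complex.I • u.2) ᵥ* (g⁻¹).1 = Complex.I • (u.2 ᵥ* (g⁻¹).1)
    rw [Matrix.smul_vecMul]

lemma actA_opJ (g : Matrix.unitaryGroup ι ℂ) (u : TA ι) : actA g (opJ u) = opJ (actA g u) := by
  apply Prod.ext
  · show g.1 *ᵥ (-star u.2) = -star (u.2 ᵥ* (g.1)ᴴ)
    rw [Matrix.star_vecMul, Matrix.conjTranspose_conjTranspose, Matrix.mulVec_neg]
  · show star u.1 ᵥ* (g.1)ᴴ = star (g.1 *ᵥ u.1)
    rw [Matrix.star_mulVec]

lemma actA_cs (g : Matrix.unitaryGroup ι ℂ) (a : Fin 3) (u : TA ι) :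
    actA g (cs a u) = cs a (actA g u) := by
  unfold cs
  split_ifs
  · exact actA_opI g u
  · exact actA_opJ g u
  · rw [actA_opI, actA_opJ]

lemma muR_actA (X : Matrix ι ι ℂ) (g : Matrix.unitaryGroup ι ℂ) (p : TA ι) :
    muR (g.1 * X * (g⁻¹).1) (actA g p) = muR X p := by
  have hg : (g.1)ᴴ * g.1 = 1 := Matrix.mem_unitaryGroup_iff'.1 g.2
  have hm : (g.1)ᴴ * (g.1 * X * (g.1)ᴴ) * g.1 = X := by
    calc (g.1)ᴴ * (g.1 * X * (g.1)ᴴ) * g.1 = ((g.1)ᴴ * g.1) * X * ((g.1)ᴴ * g.1) := by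
          simp only [Matrix.mul_assoc]
      _ = X := by rw [hg, Matrix.one_mul, Matrix.mul_one]
  show (Complex.I / 2 * (star (g.1 *ᵥ p.1) ⬝ᵥ ((g.1 * X * (g.1)ᴴ) *ᵥ (g.1 *ᵥ p.1))
    - (p.2 ᵥ* (g.1)ᴴ) ⬝ᵥ ((g.1 * X * (g.1)ᴴ) *ᵥ star (p.2 ᵥ* (g.1)ᴴ)))).re = _
  have h1 : star (g.1 *ᵥ p.1) ⬝ᵥ ((g.1 * X * (g.1)ᴴ) *ᵥ (g.1 *ᵥ p.1))
      = star p.1 ⬝ᵥ (X *ᵥ p.1) := by
    rw [Matrix.star_mulVec, ← Matrix.dotProduct_mulVec, Matrix.mulVec_mulVec,
      Matrix.mulVec_mulVec, hm]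
  have h2 : (p.2 ᵥ* (g.1)ᴴ) ⬝ᵥ ((g.1 * X * (g.1)ᴴ) *ᵥ star (p.2 ᵥ* (g.1)ᴴ))
      = p.2 ⬝ᵥ (X *ᵥ star p.2) := by
    rw [Matrix.star_vecMul, Matrix.conjTranspose_conjTranspose, ← Matrix.dotProduct_mulVec,
      Matrix.mulVec_mulVec, Matrix.mulVec_mulVec, hm]
  rw [h1, h2, muR]

lemma muC_actA (X : Matrix ι ι ℂ) (g : Matrix.unitaryGroup ι ℂ) (p : TA ι) :
    muC (g.1 * X * (g⁻¹).1) (actA g p) = muC X p := by
  have hg : (g.1)ᴴ * g.1 = 1 := Matrix.mem_unitaryGroup_iff'.1 g.2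
  have hm : (g.1)ᴴ * (g.1 * X * (g.1)ᴴ) * g.1 = X := by
    calc (g.1)ᴴ * (g.1 * X * (g.1)ᴴ) * g.1 = ((g.1)ᴴ * g.1) * X * ((g.1)ᴴ * g.1) := by
          simp only [Matrix.mul_assoc]
      _ = X := by rw [hg, Matrix.one_mul, Matrix.mul_one]
  show (p.2 ᵥ* (g.1)ᴴ) ⬝ᵥ ((g.1 * X * (g.1)ᴴ) *ᵥ (g.1 *ᵥ p.1)) = _
  rw [muC, ← Matrix.dotProduct_mulVec, Matrix.mulVec_mulVec, Matrix.mulVec_mulVec, hm]

/-! A criterion for failure of surjectivity in degree zero. -/

lemma pos_iff_of_ne_zero {Y : Type} [TopologicalSpace Y] [PreconnectedSpace Y] (f : Y → ℝ)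
    (hf : Continuous f) (hne : ∀ y, f y ≠ 0) (a b : Y) (ha : 0 < f a) : 0 < f b := by
  by_contra hb
  obtain ⟨y, hy⟩ := mem_range_of_exists_le_of_exists_ge hf ⟨b, not_lt.1 hb⟩ ⟨a, ha.le⟩
  exact hne y hy

instance : PreconnectedSpace (stdSimplex ℝ (Fin 2)) :=
  isPreconnected_iff_preconnectedSpace.1 (isPathConnected_stdSimplex (Fin 2)).isConnected.isPreconnected

lemma map_succAbove (i : Fin 2) (s : stdSimplex ℝ (Fin 1)) :
    stdSimplex.map i.succAbove s = stdSimplex.vertex (S := ℝ) (i.succAbove 0) := by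
  have : s = stdSimplex.vertex (S := ℝ) (0 : Fin 1) := Subsingleton.elim _ _
  rw [this, stdSimplex.map_vertex]

lemma not_surjective_zero (G : Subgroup (Matrix.unitaryGroup ι ℂ)) (S : Set (TA ι))
    (N : TA ι → ℝ) (hN : Continuous N) (hinv : ∀ g ∈ G, ∀ p, N (actA g p) = N p)
    (hne : ∀ s ∈ S, N s ≠ 0) (x y : TA ι) (hxS : x ∈ S) (hyS : y ∈ S) (hx : N x < 0)
    (hy : 0 < N y) (γ : C(ℝ, TA ι)) (h0 : γ 0 = x) (h1 : γ 1 = y) (e : EU ι) :
    ¬ Function.Surjective (cohMap (borelIncl G S) 0) := by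
  intro hsurj
  let Nb : Borel G S → ℝ := Quot.lift (fun p : EU ι × S => N p.2) (by
    rintro p q ⟨g, hg, -, h2⟩
    show N p.2 = N q.2
    rw [h2]
    exact (hinv g hg p.2).symm)
  have hNb : Continuous Nb :=
    continuous_quot_lift _ (hN.comp (continuous_subtype_val.comp continuous_snd))
  have hNb0 : ∀ z, Nb z ≠ 0 := by
    intro z
    induction z using Quot.ind with
    | mk p => exact hne p.2 p.2.2
  let c : Simplex (Borel G S) 0 → ℚ :=
    fun σ => if 0 < Nb ((show C(stdSimplex ℝ (Fin 1), Borel G S) from σ) default) then 1 else 0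
  have hc : IsCocycle c := by
    intro τ
    let τ' : C(stdSimplex ℝ (Fin 2), Borel G S) := τ
    have key : c (face (0 : Fin 2) τ) = c (face (1 : Fin 2) τ) := by
      have hcont : Continuous fun t => Nb (τ' t) := hNb.comp τ'.continuous
      have hiff : ∀ a b : stdSimplex ℝ (Fin 2), 0 < Nb (τ' a) → 0 < Nb (τ' b) := fun a b =>
        pos_iff_of_ne_zero (fun t => Nb (τ' t)) hcont (fun t => hNb0 _) a b
      by_cases h : 0 < Nb (τ' (stdSimplex.map (Fin.succAbove (0 : Fin 2)) default))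
      · exact (if_pos h).trans (if_pos (hiff _ _ h)).symm
      · exact (if_neg h).trans (if_neg fun h' => h (hiff _ _ h')).symm
    show ∑ i : Fin (0 + 2), (-1 : ℚ) ^ (i : ℕ) * c (face i τ) = 0
    rw [Fin.sum_univ_two]
    simp only [Fin.val_zero, pow_zero, one_mul, Fin.val_one, pow_one]
    rw [key]
    ring
  obtain ⟨w, hw⟩ := hsurj (Quot.mk _ ⟨c, hc⟩)
  obtain ⟨h, rfl⟩ := Quot.exists_rep w
  have h3 : (Quot.mk _ ⟨fun σ => h.1 (ContinuousMap.comp (borelIncl G S) σ),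
      pull_cocycle (borelIncl G S) h.2⟩ : Coh (Borel G S) 0) = Quot.mk _ ⟨c, hc⟩ := hw
  have h5 : ∀ σ : Simplex (Borel G S) 0, h.1 (ContinuousMap.comp (borelIncl G S) σ) = c σ := by
    let ev : Coh (Borel G S) 0 → (Simplex (Borel G S) 0 → ℚ) :=
      Quot.lift (fun c => c.1) fun _ _ h => h
    intro σ
    exact congrFun (congrArg ev h3) σ
  let pt : (s : TA ι) → s ∈ S → Simplex (Borel G S) 0 := fun s hs =>
    ContinuousMap.const _ (Quot.mk _ (e, ⟨s, hs⟩))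
  let τ : C(stdSimplex ℝ (Fin 2), Borel G (Set.univ : Set (TA ι))) :=
    ⟨fun t => Quot.mk _ (e, ⟨γ (t 1), trivial⟩), by
      refine continuous_quot_mk.comp (continuous_const.prodMk
        ((γ.continuous.comp ?_).subtype_mk _))
      exact (continuous_apply 1).comp continuous_subtype_val⟩
  have hτ := h.2 (show Simplex (Borel G (Set.univ : Set (TA ι))) (0 + 1) from τ)
  have hτ' : ∑ i : Fin (0 + 2), (-1 : ℚ) ^ (i : ℕ) * h.1 (face i
    (show Simplex (Borel G (Set.univ : Set (TA ι))) (0 + 1) from τ)) = 0 := hτ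
  rw [Fin.sum_univ_two] at hτ'
  have f0 : face (0 : Fin 2) (show Simplex (Borel G (Set.univ : Set (TA ι))) (0 + 1) from τ)
      = ContinuousMap.comp (borelIncl G S) (pt y hyS) := by
    apply ContinuousMap.ext
    intro s
    show (Quot.mk _ (e, ⟨γ ((stdSimplex.map (Fin.succAbove (0 : Fin 2)) s) 1), trivial⟩) :
      Borel G (Set.univ : Set (TA ι))) = Quot.mk _ (e, ⟨y, trivial⟩)
    have : (stdSimplex.map (Fin.succAbove (0 : Fin 2)) s) 1 = (1 : ℝ) := by
      rw [map_succAbove]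
      simp
    rw [this]
    congr 3
  have f1 : face (1 : Fin 2) (show Simplex (Borel G (Set.univ : Set (TA ι))) (0 + 1) from τ)
      = ContinuousMap.comp (borelIncl G S) (pt x hxS) := by
    apply ContinuousMap.ext
    intro s
    show (Quot.mk _ (e, ⟨γ ((stdSimplex.map (Fin.succAbove (1 : Fin 2)) s) 1), trivial⟩) :
      Borel G (Set.univ : Set (TA ι))) = Quot.mk _ (e, ⟨x, trivial⟩)
    have : (stdSimplex.map (Fin.succAbove (1 : Fin 2)) s) 1 = (0 : ℝ) := by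
      rw [map_succAbove]
      simp
    rw [this]
    congr 3
  rw [f0, f1, h5, h5] at hτ'
  have cy : c (pt y hyS) = 1 := if_pos hy
  have cx : c (pt x hxS) = 0 := if_neg (not_lt.2 hx.le)
  rw [cy, cx] at hτ'
  simp at hτ'

/-! The example: `SU(2) × U(1)` on `ℂ² ⊗ χ ⊕ ℂ²`. -/

/-- The embedding of `SU(2) × U(1)` in `U(4)`: `(g, t)` acts on `ℂ² ⊕ ℂ²` by `(t g, g)`. -/
def emb : (Matrix.specialUnitaryGroup (Fin 2) ℂ × Circle) →* Matrix.unitaryGroup (Fin 2 ⊕ Fin 2) ℂ where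
  toFun p := ⟨Matrix.fromBlocks ((p.2 : ℂ) • p.1.1) 0 0 p.1.1, by
    have h1 : p.1.1 * star p.1.1 = 1 :=
      Matrix.mem_unitaryGroup_iff.1 (Matrix.mem_specialUnitaryGroup_iff.1 p.1.2).1
    have h2 : (p.2 : ℂ) * star (p.2 : ℂ) = 1 := by
      have := Circle.normSq_coe p.2
      rw [Complex.star_def, Complex.mul_conj, this]
      simp
    rw [Matrix.mem_unitaryGroup_iff, Matrix.star_eq_conjTranspose, Matrix.fromBlocks_conjTranspose,
      Matrix.fromBlocks_multiply]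
    rw [Matrix.star_eq_conjTranspose] at h1
    simp only [Matrix.conjTranspose_zero, Matrix.mul_zero, Matrix.zero_mul, add_zero, zero_add,
      Matrix.conjTranspose_smul, Matrix.smul_mul, Matrix.mul_smul, smul_smul, h1, h2, one_smul]
    rw [mul_comm] at h2
    rw [h2, smul_zero, one_smul, Matrix.fromBlocks_one]⟩
  map_one' := by
    apply Subtype.ext
    show Matrix.fromBlocks (((1 : Circle) : ℂ) • (1 : Matrix (Fin 2) (Fin 2) ℂ)) 0 0 1 = 1
    simp
  map_mul' p q := by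
    apply Subtype.ext
    show Matrix.fromBlocks (((p.2 * q.2 : Circle) : ℂ) • (p.1.1 * q.1.1)) 0 0 (p.1.1 * q.1.1)
      = Matrix.fromBlocks ((p.2 : ℂ) • p.1.1) 0 0 p.1.1 * Matrix.fromBlocks ((q.2 : ℂ) • q.1.1) 0 0 q.1.1
    rw [Matrix.fromBlocks_multiply]
    simp [Matrix.smul_mul, Matrix.mul_smul, smul_smul, mul_comm]

/-- The group `G ≅ SU(2) × U(1)`. -/
def G0 : Subgroup (Matrix.unitaryGroup (Fin 2 ⊕ Fin 2) ℂ) := emb.range

lemma mem_G0 {u : Matrix.unitaryGroup (Fin 2 ⊕ Fin 2) ℂ} (hu : u ∈ G0) :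
    ∃ (h : Matrix (Fin 2) (Fin 2) ℂ) (t : ℂ), h * hᴴ = 1 ∧ h.det = 1 ∧ t * star t = 1 ∧
      u.1 = Matrix.fromBlocks (t • h) 0 0 h := by
  obtain ⟨p, rfl⟩ := hu
  refine ⟨p.1.1, p.2, ?_, (Matrix.mem_specialUnitaryGroup_iff.1 p.1.2).2, ?_, rfl⟩
  · exact Matrix.mem_unitaryGroup_iff.1 (Matrix.mem_specialUnitaryGroup_iff.1 p.1.2).1
  · have := Circle.normSq_coe p.2
    rw [Complex.star_def, Complex.mul_conj, this]
    simp

lemma mem_lieAlg_theta :
    Matrix.fromBlocks (Complex.I • (1 : Matrix (Fin 2) (Fin 2) ℂ)) 0 0 0 ∈ lieAlg G0 := by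
  refine ⟨fun s => emb (1, Circle.exp s), fun s => ⟨_, rfl⟩, by simp [← Prod.one_eq_mk], ?_⟩
  have key : HasDerivAt (fun s : ℝ => ((Circle.exp s : Circle) : ℂ)) Complex.I 0 := by
    have h1 : HasDerivAt (fun s : ℝ => Complex.exp (s * Complex.I)) Complex.I 0 := by
      have := ((Complex.ofRealCLM.hasDerivAt (x := (0 : ℝ))).mul_const Complex.I).cexp
      simpa using this
    exact h1
  have hval : ∀ s i j, (emb (1, Circle.exp s)).1 i j = Matrix.fromBlocks
      (((Circle.exp s : Circle) : ℂ) • (1 : Matrix (Fin 2) (Fin 2) ℂ)) 0 0 1 i j := fun _ _ _ => rfl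
  rintro (i | i) (j | j)
  · simp only [hval, Matrix.fromBlocks_apply₁₁, Matrix.smul_apply, smul_eq_mul]
    exact key.mul_const _
  · simp only [hval, Matrix.fromBlocks_apply₁₂]
    exact hasDerivAt_const _ _
  · simp only [hval, Matrix.fromBlocks_apply₂₁]
    exact hasDerivAt_const _ _
  · simp only [hval, Matrix.fromBlocks_apply₂₂]
    exact hasDerivAt_const _ _

lemma mem_lieAlg_of_su2 (M : ℝ → Matrix.specialUnitaryGroup (Fin 2) ℂ) (h0 : M 0 = 1)
    (Y : Matrix (Fin 2) (Fin 2) ℂ) (hY : ∀ i j, HasDerivAt (fun s => (M s).1 i j) (Y i j) 0) :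
    Matrix.fromBlocks Y 0 0 Y ∈ lieAlg G0 := by
  refine ⟨fun s => emb (M s, 1), fun s => ⟨_, rfl⟩, by simp [h0, ← Prod.one_eq_mk], ?_⟩
  have hval : ∀ s i j, (emb (M s, 1)).1 i j
      = Matrix.fromBlocks (((1 : Circle) : ℂ) • (M s).1) 0 0 (M s).1 i j := fun _ _ _ => rfl
  rintro (i | i) (j | j)
  · simp only [hval, Matrix.fromBlocks_apply₁₁, Matrix.smul_apply, smul_eq_mul, Circle.coe_one,
      one_mul]
    exact hY i j
  · simp only [hval, Matrix.fromBlocks_apply₁₂]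
    exact hasDerivAt_const _ _
  · simp only [hval, Matrix.fromBlocks_apply₂₁]
    exact hasDerivAt_const _ _
  · simp only [hval, Matrix.fromBlocks_apply₂₂]
    exact hY i j

/-- The element of `SU(2)` with first row `(α, β)`. -/
def su (α β : ℂ) (h : α * star α + β * star β = 1) : Matrix.specialUnitaryGroup (Fin 2) ℂ :=
  ⟨!![α, β; -star β, star α], by
    rw [Matrix.mem_specialUnitaryGroup_iff, Matrix.mem_unitaryGroup_iff,
      Matrix.star_eq_conjTranspose]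
    constructor
    · ext i j
      fin_cases i <;> fin_cases j <;>
        simp [Matrix.mul_apply, Fin.sum_univ_two, Matrix.conjTranspose_apply] <;>
        simp only [Complex.star_def] at h <;> first | ring1 | linear_combination h
    · rw [Matrix.det_fin_two_of]
      linear_combination h⟩

lemma su_one (h : (1 : ℂ) * star 1 + 0 * star 0 = 1) : su 1 0 h = 1 := by
  apply Subtype.ext
  show !![(1 : ℂ), 0; -star 0, star 1] = 1
  ext i j
  fin_cases i <;> fin_cases j <;> simp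

lemma hasDerivAt_cexp : HasDerivAt (fun s : ℝ => Complex.exp (s * Complex.I)) Complex.I 0 := by
  have := ((Complex.ofRealCLM.hasDerivAt (x := (0 : ℝ))).mul_const Complex.I).cexp
  simpa using this

lemma hasDerivAt_cos : HasDerivAt (fun s : ℝ => (Real.cos s : ℂ)) 0 0 := by
  have := (Real.hasDerivAt_cos 0).ofReal_comp
  simpa using this

lemma hasDerivAt_sin : HasDerivAt (fun s : ℝ => (Real.sin s : ℂ)) 1 0 := by
  have := (Real.hasDerivAt_sin 0).ofReal_comp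
  simpa using this

lemma mem_lieAlg_D : Matrix.fromBlocks !![Complex.I, 0; 0, -Complex.I] 0 0
    !![Complex.I, 0; 0, -Complex.I] ∈ lieAlg G0 := by
  have hs : ∀ s : ℝ, Complex.exp (s * Complex.I) * star (Complex.exp (s * Complex.I))
      + 0 * star 0 = 1 := by
    intro s
    rw [Complex.star_def, Complex.mul_conj, Complex.normSq_eq_norm_sq,
      Complex.norm_exp_ofReal_mul_I]
    simp
  apply mem_lieAlg_of_su2 (fun s => su (Complex.exp (s * Complex.I)) 0 (hs s))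
  · rw [← su_one (by simp)]
    congr 1
    simp
  · intro i j
    have h := hasDerivAt_cexp
    fin_cases i <;> fin_cases j
    · simpa [su] using h
    · simpa [su] using hasDerivAt_const (0 : ℝ) (0 : ℂ)
    · simpa [su] using hasDerivAt_const (0 : ℝ) (0 : ℂ)
    · have h2 := (Complex.conjCLE.toContinuousLinearMap.hasFDerivAt.comp_hasDerivAt (0 : ℝ) h)
      simpa [su, Function.comp_def] using h2

lemma mem_lieAlg_R : Matrix.fromBlocks !![(0 : ℂ), 1; -1, 0] 0 0 !![(0 : ℂ), 1; -1, 0] ∈ lieAlg G0 := by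
  have hs : ∀ s : ℝ, (Real.cos s : ℂ) * star (Real.cos s : ℂ) + (Real.sin s : ℂ) * star (Real.sin s : ℂ) = 1 := by
    intro s
    rw [Complex.star_def, Complex.conj_ofReal, Complex.conj_ofReal]
    norm_cast
    nlinarith [Real.cos_sq_add_sin_sq s]
  apply mem_lieAlg_of_su2 (fun s => su (Real.cos s) (Real.sin s) (hs s))
  · rw [← su_one (by simp)]
    congr 1 <;> simp
  · intro i j
    fin_cases i <;> fin_cases j
    · simpa [su] using hasDerivAt_cos
    · simpa [su] using hasDerivAt_sin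
    · simpa [su, ← Complex.ofReal_sin, Complex.conj_ofReal, -Complex.ofReal_sin] using hasDerivAt_sin.fun_neg
    · simpa [su, ← Complex.ofReal_cos, Complex.conj_ofReal, -Complex.ofReal_cos] using hasDerivAt_cos

lemma mem_lieAlg_S : Matrix.fromBlocks !![(0 : ℂ), Complex.I; Complex.I, 0] 0 0
    !![(0 : ℂ), Complex.I; Complex.I, 0] ∈ lieAlg G0 := by
  have hs : ∀ s : ℝ, (Real.cos s : ℂ) * star (Real.cos s : ℂ)
      + (Real.sin s * Complex.I : ℂ) * star (Real.sin s * Complex.I : ℂ) = 1 := by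
    intro s
    have h1 : star (Real.sin s * Complex.I : ℂ) = - (Real.sin s * Complex.I) := by
      rw [Complex.star_def, map_mul, Complex.conj_ofReal, Complex.conj_I]
      ring
    rw [h1, Complex.star_def, Complex.conj_ofReal]
    have h2 : (Real.cos s : ℂ) ^ 2 + (Real.sin s : ℂ) ^ 2 = 1 := by
      norm_cast
      exact Real.cos_sq_add_sin_sq s
    linear_combination h2 - (Real.sin s : ℂ) ^ 2 * Complex.I_sq
  apply mem_lieAlg_of_su2 (fun s => su (Real.cos s) (Real.sin s * Complex.I) (hs s))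
  · rw [← su_one (by simp)]
    congr 1 <;> simp
  · intro i j
    fin_cases i <;> fin_cases j
    · simpa [su] using hasDerivAt_cos
    · simpa [su] using hasDerivAt_sin.mul_const Complex.I
    · simpa [su, ← Complex.ofReal_sin, Complex.conj_ofReal, -Complex.ofReal_sin] using hasDerivAt_sin.mul_const Complex.I
    · simpa [su, ← Complex.ofReal_cos, Complex.conj_ofReal, -Complex.ofReal_cos] using hasDerivAt_cos

/-- The algebra behind the description of the level set. -/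
lemma alg_core (x1 x2 y1 y2 p1 p2 r1 r2 X1 X2 Y1 Y2 P1 P2 R1 R2 c : ℂ)
    (E1 : x1 * p2 + y1 * r2 = 0) (E2 : x2 * p1 + y2 * r1 = 0)
    (E3 : x1 * p1 + y1 * r1 = x2 * p2 + y2 * r2)
    (E1' : X1 * P2 + Y1 * R2 = 0) (E2' : X2 * P1 + Y2 * R1 = 0)
    (E3' : X1 * P1 + Y1 * R1 = X2 * P2 + Y2 * R2)
    (E5 : x1 * X2 + y1 * Y2 - p2 * P1 - r2 * R1 = 0)
    (E5' : X1 * x2 + Y1 * y2 - P2 * p1 - R2 * r1 = 0)
    (E6 : x1 * X1 + y1 * Y1 - p1 * P1 - r1 * R1
      = x2 * X2 + y2 * Y2 - p2 * P2 - r2 * R2)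
    (hc : x1 * X1 + y1 * Y1 + p2 * P2 + r2 * R2 = c) (hc0 : c ≠ 0) :
    x1 * X1 + x2 * X2 + p1 * P1 + p2 * P2 = c ∧ y1 * Y1 + y2 * Y2 + r1 * R1 + r2 * R2 = c ∧
    X2 * p1 - X1 * p2 = 0 ∧ X1 * y1 + X2 * y2 + p2 * R2 + p1 * R1 = 0 ∧
    X2 * r1 - X1 * r2 + p1 * Y2 - p2 * Y1 = 0 := by
  let A : Matrix (Fin 4) (Fin 4) ℂ :=
    !![x1, y1, -p2, -r2; x2, y2, p1, r1; -P2, -R2, X1, Y1; P1, R1, X2, Y2]
  let B : Matrix (Fin 4) (Fin 4) ℂ :=
    !![X1, X2, -p2, p1; Y1, Y2, -r2, r1; -P2, P1, x1, x2; -R2, R1, y1, y2]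
  have hAB : A * B = c • (1 : Matrix (Fin 4) (Fin 4) ℂ) := by
    ext i j
    fin_cases i <;> fin_cases j <;>
      simp [A, B, Matrix.mul_apply, Fin.sum_univ_four] <;>
      first
      | linear_combination hc
      | linear_combination hc - E6
      | linear_combination E5
      | linear_combination E5'
      | linear_combination (-2) * E1
      | linear_combination (-2) * E1'
      | linear_combination 2 * E2
      | linear_combination 2 * E2'
      | linear_combination E3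
      | linear_combination E3'
  have hBA : B * A = c • (1 : Matrix (Fin 4) (Fin 4) ℂ) := by
    have h1 : A * (c⁻¹ • B) = 1 := by
      rw [Matrix.mul_smul, hAB, smul_smul, inv_mul_cancel₀ hc0, one_smul]
    have h2 := _root_.mul_eq_one_comm.1 h1
    rw [Matrix.smul_mul] at h2
    rw [← h2, smul_smul, mul_inv_cancel₀ hc0, one_smul]
  have e00 := congrFun (congrFun hBA 0) 0
  have e11 := congrFun (congrFun hBA 1) 1
  have e02 := congrFun (congrFun hBA 0) 2
  have e01 := congrFun (congrFun hBA 0) 1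
  have e03 := congrFun (congrFun hBA 0) 3
  simp [A, B, Matrix.mul_apply, Fin.sum_univ_four] at e00 e11 e02 e01 e03
  refine ⟨?_, ?_, ?_, ?_, ?_⟩
  · linear_combination e00
  · linear_combination e11
  · linear_combination e02 / 2
  · linear_combination e01
  · linear_combination e03

lemma level_algebra (x1 x2 y1 y2 p1 p2 r1 r2 : ℂ)
    (E1 : x1 * p2 + y1 * r2 = 0) (E2 : x2 * p1 + y2 * r1 = 0)
    (E3 : x1 * p1 + y1 * r1 = x2 * p2 + y2 * r2)
    (E4 : x1 * p1 + x2 * p2 = 0)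
    (E5 : x1 * star x2 + y1 * star y2 - p2 * star p1 - r2 * star r1 = 0)
    (E6 : x1 * star x1 + y1 * star y1 - p1 * star p1 - r1 * star r1
      = x2 * star x2 + y2 * star y2 - p2 * star p2 - r2 * star r2)
    (E7 : x1 * star x1 + x2 * star x2 - p1 * star p1 - p2 * star p2 = 1) :
    (p1 = 0 ∧ p2 = 0) ∧ ((y1 = 0 ∧ y2 = 0 ∧ r1 * star r1 + r2 * star r2 = 1) ∨
      (r1 = 0 ∧ r2 = 0 ∧ y1 * star y1 + y2 * star y2 = 1)) := by
  have nn : ∀ z : ℂ, z * star z = ((‖z‖ ^ 2 : ℝ) : ℂ) := fun z => by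
    rw [Complex.star_def, Complex.mul_conj, Complex.normSq_eq_norm_sq]
  have hc0 : x1 * star x1 + y1 * star y1 + p2 * star p2 + r2 * star r2 ≠ 0 := by
    intro h
    have h2 : x2 * star x2 + y2 * star y2 + p1 * star p1 + r1 * star r1 = 0 := by
      linear_combination h - E6
    simp only [nn] at h h2 E7
    norm_cast at h h2 E7
    nlinarith [sq_nonneg ‖x1‖, sq_nonneg ‖y1‖, sq_nonneg ‖p2‖, sq_nonneg ‖r2‖, sq_nonneg ‖x2‖,
      sq_nonneg ‖y2‖, sq_nonneg ‖p1‖, sq_nonneg ‖r1‖]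
  have E1' := congrArg star E1
  have E2' := congrArg star E2
  have E3' := congrArg star E3
  have E5' := congrArg star E5
  simp only [star_add, star_sub, star_mul', star_star, star_zero] at E1' E2' E3' E5'
  obtain ⟨F1, F2, F3, F4, F5⟩ := alg_core x1 x2 y1 y2 p1 p2 r1 r2 _ _ _ _ _ _ _ _ _ E1 E2 E3
    E1' E2' E3' E5 E5' E6 rfl hc0
  -- `x ≠ 0`
  have hx : x1 * star x1 + x2 * star x2 ≠ 0 := by
    intro h
    simp only [nn] at h E7
    norm_cast at h E7
    nlinarith [sq_nonneg ‖x1‖, sq_nonneg ‖p2‖, sq_nonneg ‖x2‖, sq_nonneg ‖p1‖]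
  have hp1 : p1 = 0 := by
    have : (x1 * star x1 + x2 * star x2) * p1 = 0 := by
      linear_combination star x1 * E4 + x2 * F3
    exact (mul_eq_zero.1 this).resolve_left hx
  have hp2 : p2 = 0 := by
    have : (x1 * star x1 + x2 * star x2) * p2 = 0 := by
      linear_combination star x2 * E4 - x1 * F3
    exact (mul_eq_zero.1 this).resolve_left hx
  subst hp1 hp2
  simp only [mul_zero, zero_mul, star_zero, add_zero, zero_add, sub_zero] at *
  have G1 : y1 * r1 + y2 * r2 = 0 := by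
    have : (x1 * star x1 + x2 * star x2) * (y1 * r1 + y2 * r2) = 0 := by
      linear_combination (x1 * r1 + x2 * r2) * F4 + (x2 * y1 - x1 * y2) * F5
    exact (mul_eq_zero.1 this).resolve_left hx
  have G2 : y1 * r1 = 0 := by linear_combination (G1 + E3) / 2
  have G3 : y2 * r2 = 0 := by linear_combination (G1 - E3) / 2
  refine ⟨⟨trivial, trivial⟩, ?_⟩
  have H : y1 * star y1 + y2 * star y2 + (r1 * star r1 + r2 * star r2) = 1 := by
    linear_combination F2 - F1 + E7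
  by_cases hy : y1 = 0 ∧ y2 = 0
  · left
    obtain ⟨rfl, rfl⟩ := hy
    refine ⟨rfl, rfl, ?_⟩
    simpa using H
  · right
    have hr : r1 = 0 ∧ r2 = 0 := by
      by_cases hy1 : y1 = 0
      · have hy2 : y2 ≠ 0 := fun h => hy ⟨hy1, h⟩
        exact ⟨(mul_eq_zero.1 E2).resolve_left hy2, (mul_eq_zero.1 G3).resolve_left hy2⟩
      · exact ⟨(mul_eq_zero.1 G2).resolve_left hy1, (mul_eq_zero.1 E1).resolve_left hy1⟩
    obtain ⟨rfl, rfl⟩ := hr
    refine ⟨rfl, rfl, ?_⟩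
    simpa using H

lemma aux_im (W : ℂ) : (Complex.I / 2 * (star W - W)).re = W.im := by
  simp [Complex.mul_re, Complex.div_re, Complex.div_im]
  ring

lemma aux_re (W : ℂ) : (Complex.I / 2 * (Complex.I * (star W + W))).re = -W.re := by
  simp [Complex.mul_re, Complex.div_re, Complex.div_im]
  ring

/-! Compactness and connectedness of `G0`. -/

lemma su_cond (v : Metric.sphere (0 : EuclideanSpace ℂ (Fin 2)) 1) :
    v.1 0 * star (v.1 0) + v.1 1 * star (v.1 1) = 1 := by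
  have h : ‖v.1‖ = 1 := by simp
  have h2 := EuclideanSpace.norm_sq_eq v.1
  rw [h, Fin.sum_univ_two] at h2
  rw [Complex.star_def, Complex.mul_conj, Complex.mul_conj,
    Complex.normSq_eq_norm_sq, Complex.normSq_eq_norm_sq]
  rw [← Complex.ofReal_add, ← h2]
  norm_num

/-- A continuous surjection from `S³ × S¹` onto `G0`. -/
def psi (q : Metric.sphere (0 : EuclideanSpace ℂ (Fin 2)) 1 × Circle) :
    Matrix.unitaryGroup (Fin 2 ⊕ Fin 2) ℂ :=
  emb (su (q.1.1 0) (q.1.1 1) (su_cond q.1), q.2)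

lemma psi_continuous : Continuous psi := by
  apply Continuous.subtype_mk
  show Continuous fun q : Metric.sphere (0 : EuclideanSpace ℂ (Fin 2)) 1 × Circle =>
    Matrix.fromBlocks ((q.2 : ℂ) • !![q.1.1 0, q.1.1 1; -star (q.1.1 1), star (q.1.1 0)]) 0 0
      !![q.1.1 0, q.1.1 1; -star (q.1.1 1), star (q.1.1 0)]
  have hM : Continuous fun q : Metric.sphere (0 : EuclideanSpace ℂ (Fin 2)) 1 × Circle =>
      !![q.1.1 0, q.1.1 1; -star (q.1.1 1), star (q.1.1 0)] := by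
    apply continuous_matrix
    intro i j
    fin_cases i <;> fin_cases j <;> simp <;> fun_prop
  apply Continuous.matrix_fromBlocks
  · have hC : Continuous fun q : Metric.sphere (0 : EuclideanSpace ℂ (Fin 2)) 1 × Circle =>
        (q.2 : ℂ) := continuous_induced_dom.comp continuous_snd
    exact hC.smul hM
  · exact continuous_const
  · exact continuous_const
  · exact hM

lemma psi_range : Set.range psi = (G0 : Set (Matrix.unitaryGroup (Fin 2 ⊕ Fin 2) ℂ)) := by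
  apply Set.Subset.antisymm
  · rintro _ ⟨q, rfl⟩
    exact ⟨_, rfl⟩
  · rintro _ ⟨p, rfl⟩
    obtain ⟨⟨h, hh⟩, t⟩ := p
    obtain ⟨hh1, hh2⟩ := Matrix.mem_specialUnitaryGroup_iff.1 hh
    have h1 : h * hᴴ = 1 := Matrix.mem_unitaryGroup_iff.1 hh1
    have h2 : h * h.adjugate = 1 := by rw [Matrix.mul_adjugate, hh2, one_smul]
    have h3 : hᴴ = h.adjugate := by
      have h4 : h.adjugate * h = 1 := _root_.mul_eq_one_comm.1 h2
      calc hᴴ = (h.adjugate * h) * hᴴ := by rw [h4, one_mul]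
        _ = h.adjugate := by rw [Matrix.mul_assoc, h1, mul_one]
    have a1 : h 1 0 = -star (h 0 1) := by
      have := congrFun (congrFun h3 1) 0
      rw [Matrix.adjugate_fin_two, Matrix.conjTranspose_apply] at this
      simp at this
      rw [Complex.star_def, this]
      ring
    have a2 : h 1 1 = star (h 0 0) := by
      have := congrFun (congrFun h3 0) 0
      rw [Matrix.adjugate_fin_two, Matrix.conjTranspose_apply] at this
      simpa using this.symm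
    have hn : ‖(WithLp.toLp 2 ![h 0 0, h 0 1] : EuclideanSpace ℂ (Fin 2))‖ = 1 := by
      have e00 := congrFun (congrFun h1 0) 0
      simp only [Matrix.mul_apply, Fin.sum_univ_two, Matrix.conjTranspose_apply,
        Matrix.one_apply_eq, Complex.star_def, Complex.mul_conj,
        Complex.normSq_eq_norm_sq] at e00
      norm_cast at e00
      rw [EuclideanSpace.norm_eq, Fin.sum_univ_two]
      simp [e00]
    refine ⟨(⟨WithLp.toLp 2 ![h 0 0, h 0 1], by simpa using hn⟩, t), ?_⟩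
    show emb (su _ _ _, t) = emb (⟨h, hh⟩, t)
    congr 2
    apply Subtype.ext
    show !![h 0 0, h 0 1; -star (h 0 1), star (h 0 0)] = h
    ext i j
    fin_cases i <;> fin_cases j
    · rfl
    · rfl
    · exact a1.symm
    · exact a2.symm

lemma G0_compact : IsCompact (G0 : Set (Matrix.unitaryGroup (Fin 2 ⊕ Fin 2) ℂ)) := by
  rw [← psi_range]
  exact isCompact_range psi_continuous

lemma G0_connected : IsConnected (G0 : Set (Matrix.unitaryGroup (Fin 2 ⊕ Fin 2) ℂ)) := by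
  rw [← psi_range]
  have h1 : ConnectedSpace (Metric.sphere (0 : EuclideanSpace ℂ (Fin 2)) 1) := by
    rw [← isConnected_iff_connectedSpace]
    apply isConnected_sphere
    · rw [← Module.finrank_eq_rank, finrank_real_of_complex]
      simp
    · norm_num
  exact isConnected_range psi_continuous



/-! The moment map of the example. -/

/-- The generator of the `U(1)` factor. -/
def gT : Matrix (Fin 2 ⊕ Fin 2) (Fin 2 ⊕ Fin 2) ℂ :=
  Matrix.fromBlocks (Complex.I • (1 : Matrix (Fin 2) (Fin 2) ℂ)) 0 0 0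

/-- The generators of the `SU(2)` factor. -/
def gD : Matrix (Fin 2 ⊕ Fin 2) (Fin 2 ⊕ Fin 2) ℂ :=
  Matrix.fromBlocks !![Complex.I, 0; 0, -Complex.I] 0 0 !![Complex.I, 0; 0, -Complex.I]

/-- The generators of the `SU(2)` factor. -/
def gE : Matrix (Fin 2 ⊕ Fin 2) (Fin 2 ⊕ Fin 2) ℂ :=
  Matrix.fromBlocks !![(0 : ℂ), 1; -1, 0] 0 0 !![(0 : ℂ), 1; -1, 0]

/-- The generators of the `SU(2)` factor. -/
def gS : Matrix (Fin 2 ⊕ Fin 2) (Fin 2 ⊕ Fin 2) ℂ :=
  Matrix.fromBlocks !![(0 : ℂ), Complex.I; Complex.I, 0] 0 0 !![(0 : ℂ), Complex.I; Complex.I, 0]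

/-- The equations of the level set. -/
lemma level_eqs (p : TA (Fin 2 ⊕ Fin 2)) (τ : ℝ)
    (hT1 : muR gT p = -τ / 2) (hT2 : muC gT p = 0) (hD1 : muR gD p = 0) (hD2 : muC gD p = 0)
    (hR1 : muR gE p = 0) (hR2 : muC gE p = 0) (hS1 : muR gS p = 0) (hS2 : muC gS p = 0) :
    (p.1 (Sum.inl 0) * p.2 (Sum.inl 1) + p.1 (Sum.inr 0) * p.2 (Sum.inr 1) = 0) ∧
    (p.1 (Sum.inl 1) * p.2 (Sum.inl 0) + p.1 (Sum.inr 1) * p.2 (Sum.inr 0) = 0) ∧
    (p.1 (Sum.inl 0) * p.2 (Sum.inl 0) + p.1 (Sum.inr 0) * p.2 (Sum.inr 0)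
      = p.1 (Sum.inl 1) * p.2 (Sum.inl 1) + p.1 (Sum.inr 1) * p.2 (Sum.inr 1)) ∧
    (p.1 (Sum.inl 0) * p.2 (Sum.inl 0) + p.1 (Sum.inl 1) * p.2 (Sum.inl 1) = 0) ∧
    (p.1 (Sum.inl 0) * star (p.1 (Sum.inl 1)) + p.1 (Sum.inr 0) * star (p.1 (Sum.inr 1))
      - p.2 (Sum.inl 1) * star (p.2 (Sum.inl 0)) - p.2 (Sum.inr 1) * star (p.2 (Sum.inr 0)) = 0) ∧
    (p.1 (Sum.inl 0) * star (p.1 (Sum.inl 0)) + p.1 (Sum.inr 0) * star (p.1 (Sum.inr 0))
      - p.2 (Sum.inl 0) * star (p.2 (Sum.inl 0)) - p.2 (Sum.inr 0) * star (p.2 (Sum.inr 0))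
      = p.1 (Sum.inl 1) * star (p.1 (Sum.inl 1)) + p.1 (Sum.inr 1) * star (p.1 (Sum.inr 1))
      - p.2 (Sum.inl 1) * star (p.2 (Sum.inl 1)) - p.2 (Sum.inr 1) * star (p.2 (Sum.inr 1))) ∧
    (p.1 (Sum.inl 0) * star (p.1 (Sum.inl 0)) + p.1 (Sum.inl 1) * star (p.1 (Sum.inl 1))
      - p.2 (Sum.inl 0) * star (p.2 (Sum.inl 0)) - p.2 (Sum.inl 1) * star (p.2 (Sum.inl 1))
      = τ) := by
  simp only [gT, gD, gE, gS, muR, muC, dotProduct, Matrix.mulVec,
    Fintype.sum_sum_type, Fin.sum_univ_two, Matrix.fromBlocks_apply₁₁, Matrix.fromBlocks_apply₁₂,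
    Matrix.fromBlocks_apply₂₁, Matrix.fromBlocks_apply₂₂, Pi.star_apply,
    Matrix.of_apply, Matrix.cons_val', Matrix.cons_val_zero,
    Matrix.cons_val_one, Matrix.zero_apply, Matrix.smul_apply, Matrix.one_apply, smul_eq_mul,
    Matrix.cons_val_fin_one, zero_mul, add_zero, zero_add, mul_zero, if_true, reduceIte, mul_one,
    Fin.isValue, zero_ne_one, one_ne_zero, neg_mul, mul_neg] at hT1 hT2 hD1 hD2 hR1 hR2 hS1 hS2
  generalize p.1 (Sum.inl 0) = x1 at *
  generalize p.1 (Sum.inl 1) = x2 at *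
  generalize p.1 (Sum.inr 0) = y1 at *
  generalize p.1 (Sum.inr 1) = y2 at *
  generalize p.2 (Sum.inl 0) = p1 at *
  generalize p.2 (Sum.inl 1) = p2 at *
  generalize p.2 (Sum.inr 0) = r1 at *
  generalize p.2 (Sum.inr 1) = r2 at *
  have nn : ∀ z : ℂ, z * star z = ((‖z‖ ^ 2 : ℝ) : ℂ) := fun z => by
    rw [Complex.star_def, Complex.mul_conj, Complex.normSq_eq_norm_sq]
  have hI := Complex.I_mul_I
  have E4 : x1 * p1 + x2 * p2 = 0 := by
    linear_combination (-Complex.I) * hT2 + (x1 * p1 + x2 * p2) * hI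
  have E3 : x1 * p1 + y1 * r1 = x2 * p2 + y2 * r2 := by
    linear_combination (-Complex.I) * hD2 + (x1 * p1 + y1 * r1 - x2 * p2 - y2 * r2) * hI
  have hS2' : p1 * x2 + p2 * x1 + (r1 * y2 + r2 * y1) = 0 := by
    linear_combination (-Complex.I) * hS2 + (p1 * x2 + p2 * x1 + (r1 * y2 + r2 * y1)) * hI
  have E1 : x1 * p2 + y1 * r2 = 0 := by
    linear_combination (hS2' - hR2) / 2
  have E2 : x2 * p1 + y2 * r1 = 0 := by
    linear_combination (hS2' + hR2) / 2
  have E7 : x1 * star x1 + x2 * star x2 - p1 * star p1 - p2 * star p2 = τ := by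
    have h1 : Complex.I / 2 * (star x1 * (Complex.I * x1) + star x2 * (Complex.I * x2) -
        (p1 * (Complex.I * star p1) + p2 * (Complex.I * star p2)))
        = ((-(‖x1‖ ^ 2 + ‖x2‖ ^ 2 - ‖p1‖ ^ 2 - ‖p2‖ ^ 2) / 2 : ℝ) : ℂ) := by
      push_cast
      have e1 := nn x1
      have e2 := nn x2
      have e3 := nn p1
      have e4 := nn p2
      push_cast at e1 e2 e3 e4
      rw [← e1, ← e2, ← e3, ← e4]
      linear_combination (x1 * star x1 + x2 * star x2 - p1 * star p1 - p2 * star p2) / 2 * hI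
    rw [h1, Complex.ofReal_re] at hT1
    simp only [nn]
    norm_cast
    linarith
  have E6 : x1 * star x1 + y1 * star y1 - p1 * star p1 - r1 * star r1
      = x2 * star x2 + y2 * star y2 - p2 * star p2 - r2 * star r2 := by
    have h1 : (Complex.I / 2 *
        (star x1 * (Complex.I * x1) + -(star x2 * (Complex.I * x2)) +
            (star y1 * (Complex.I * y1) + -(star y2 * (Complex.I * y2))) -
          (p1 * (Complex.I * star p1) + -(p2 * (Complex.I * star p2)) +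
            (r1 * (Complex.I * star r1) + -(r2 * (Complex.I * star r2))))))
        = ((-(‖x1‖ ^ 2 - ‖x2‖ ^ 2 + ‖y1‖ ^ 2 - ‖y2‖ ^ 2 - ‖p1‖ ^ 2 + ‖p2‖ ^ 2 - ‖r1‖ ^ 2
          + ‖r2‖ ^ 2) / 2 : ℝ) : ℂ) := by
      push_cast
      have e1 := nn x1
      have e2 := nn x2
      have e3 := nn p1
      have e4 := nn p2
      have e5 := nn y1
      have e6 := nn y2
      have e7 := nn r1
      have e8 := nn r2
      push_cast at e1 e2 e3 e4 e5 e6 e7 e8
      rw [← e1, ← e2, ← e3, ← e4, ← e5, ← e6, ← e7, ← e8]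
      linear_combination (x1 * star x1 - x2 * star x2 + y1 * star y1 - y2 * star y2
        - p1 * star p1 + p2 * star p2 - r1 * star r1 + r2 * star r2) / 2 * hI
    rw [h1, Complex.ofReal_re] at hD1
    simp only [nn]
    norm_cast
    linarith
  have E5 : x1 * star x2 + y1 * star y2 - p2 * star p1 - r2 * star r1 = 0 := by
    set W : ℂ := x1 * star x2 + y1 * star y2 - p2 * star p1 - r2 * star r1 with hW
    have hWs : star W = star x1 * x2 + star y1 * y2 - star p2 * p1 - star r2 * r1 := by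
      rw [hW]
      simp only [star_add, star_sub, star_mul', star_star]
    have h1 : Complex.I / 2 *
        (star x1 * (1 * x2) + -(star x2 * (1 * x1)) + (star y1 * (1 * y2) + -(star y2 * (1 * y1))) -
          (p1 * (1 * star p2) + -(p2 * (1 * star p1)) + (r1 * (1 * star r2) + -(r2 * (1 * star r1)))))
        = Complex.I / 2 * (star W - W) := by
      rw [hWs, hW]
      ring
    have h2 : Complex.I / 2 *
        (star x1 * (Complex.I * x2) + star x2 * (Complex.I * x1) +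
            (star y1 * (Complex.I * y2) + star y2 * (Complex.I * y1)) -
          (p1 * (Complex.I * star p2) + p2 * (Complex.I * star p1) +
            (r1 * (Complex.I * star r2) + r2 * (Complex.I * star r1))))
        = Complex.I / 2 * (Complex.I * (star W + W)) := by
      rw [hWs, hW]
      ring
    rw [h1, aux_im] at hR1
    rw [h2, aux_re] at hS1
    apply Complex.ext
    · simpa using hS1
    · simpa using hR1
  exact ⟨E1, E2, E3, E4, E5, E6, E7⟩

/-- If all components of the homogeneous moment map vanish at `p` then `p = 0`. -/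
lemma homogeneous_zero (p : TA (Fin 2 ⊕ Fin 2))
    (hT1 : muR gT p = 0) (hT2 : muC gT p = 0) (hD1 : muR gD p = 0) (hD2 : muC gD p = 0)
    (hR1 : muR gE p = 0) (hR2 : muC gE p = 0) (hS1 : muR gS p = 0) (hS2 : muC gS p = 0) :
    p.1 = 0 ∧ p.2 = 0 := by
  obtain ⟨E1, E2, E3, E4, E5, E6, E7⟩ := level_eqs p 0 (by rw [hT1]; simp) hT2 hD1 hD2 hR1 hR2 hS1 hS2
  have hall : p.1 (Sum.inl 0) = 0 ∧ p.1 (Sum.inl 1) = 0 ∧ p.1 (Sum.inr 0) = 0 ∧
      p.1 (Sum.inr 1) = 0 ∧ p.2 (Sum.inl 0) = 0 ∧ p.2 (Sum.inl 1) = 0 ∧ p.2 (Sum.inr 0) = 0 ∧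
      p.2 (Sum.inr 1) = 0 := by
    generalize p.1 (Sum.inl 0) = x1 at *
    generalize p.1 (Sum.inl 1) = x2 at *
    generalize p.1 (Sum.inr 0) = y1 at *
    generalize p.1 (Sum.inr 1) = y2 at *
    generalize p.2 (Sum.inl 0) = p1 at *
    generalize p.2 (Sum.inl 1) = p2 at *
    generalize p.2 (Sum.inr 0) = r1 at *
    generalize p.2 (Sum.inr 1) = r2 at *
    have nn : ∀ z : ℂ, z * star z = ((‖z‖ ^ 2 : ℝ) : ℂ) := fun z => by
      rw [Complex.star_def, Complex.mul_conj, Complex.normSq_eq_norm_sq]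
    have hc : x1 * star x1 + y1 * star y1 + p2 * star p2 + r2 * star r2 = 0 := by
      by_contra hc0
      have E1' := congrArg star E1
      have E2' := congrArg star E2
      have E3' := congrArg star E3
      have E5' := congrArg star E5
      simp only [star_add, star_sub, star_mul', star_star, star_zero] at E1' E2' E3' E5'
      obtain ⟨F1, F2, F3, F4, F5⟩ := alg_core x1 x2 y1 y2 p1 p2 r1 r2 _ _ _ _ _ _ _ _ _ E1 E2 E3
        E1' E2' E3' E5 E5' E6 rfl hc0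
      have hx : x1 * star x1 + x2 * star x2 = 0 := by
        by_contra hx
        have hp1 : p1 = 0 := by
          have : (x1 * star x1 + x2 * star x2) * p1 = 0 := by
            linear_combination star x1 * E4 + x2 * F3
          exact (mul_eq_zero.1 this).resolve_left hx
        have hp2 : p2 = 0 := by
          have : (x1 * star x1 + x2 * star x2) * p2 = 0 := by
            linear_combination star x2 * E4 - x1 * F3
          exact (mul_eq_zero.1 this).resolve_left hx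
        rw [hp1, hp2] at E7
        apply hx
        simpa using E7
      apply hc0
      rw [← F1]
      have : x1 * star x1 + x2 * star x2 - p1 * star p1 - p2 * star p2 = 0 := by simpa using E7
      linear_combination 2 * hx - this
    have hc2 : x2 * star x2 + y2 * star y2 + p1 * star p1 + r1 * star r1 = 0 := by
      linear_combination hc - E6
    simp only [nn] at hc hc2
    norm_cast at hc hc2
    have a1 := sq_nonneg ‖x1‖
    have a2 := sq_nonneg ‖x2‖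
    have a3 := sq_nonneg ‖y1‖
    have a4 := sq_nonneg ‖y2‖
    have a5 := sq_nonneg ‖p1‖
    have a6 := sq_nonneg ‖p2‖
    have a7 := sq_nonneg ‖r1‖
    have a8 := sq_nonneg ‖r2‖
    refine ⟨?_, ?_, ?_, ?_, ?_, ?_, ?_, ?_⟩ <;> rw [← norm_eq_zero, ← sq_eq_zero_iff] <;> linarith
  obtain ⟨b1, b2, b3, b4, b5, b6, b7, b8⟩ := hall
  constructor
  · funext i
    rcases i with i | i <;> fin_cases i <;> assumption
  · funext i
    rcases i with i | i <;> fin_cases i <;> assumption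


/-- The hyperkahler moment map of the example: the homogeneous one minus the central value
`ξ = (- Im tr / 4, 0)`. -/
def mu0 (a : Fin 3) (X : Matrix (Fin 2 ⊕ Fin 2) (Fin 2 ⊕ Fin 2) ℂ) (p : TA (Fin 2 ⊕ Fin 2)) : ℝ :=
  if a = 0 then muR X p + X.trace.im / 4 else if a = 1 then (muC X p).re else (muC X p).im

lemma muR_lin (X Y : Matrix ι ι ℂ) (r s : ℝ) (p : TA ι) :
    muR (r • X + s • Y) p = r * muR X p + s * muR Y p := by
  rw [muR, muR, muR]
  simp only [Matrix.add_mulVec, Matrix.smul_mulVec, dotProduct_add, dotProduct_smul]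
  generalize star p.1 ⬝ᵥ (X *ᵥ p.1) = z1
  generalize star p.1 ⬝ᵥ (Y *ᵥ p.1) = z2
  generalize p.2 ⬝ᵥ (X *ᵥ star p.2) = z3
  generalize p.2 ⬝ᵥ (Y *ᵥ star p.2) = z4
  simp [Complex.mul_re]
  ring

lemma muC_lin (X Y : Matrix ι ι ℂ) (r s : ℝ) (p : TA ι) :
    muC (r • X + s • Y) p = r * muC X p + s * muC Y p := by
  rw [muC, muC, muC]
  simp only [Matrix.add_mulVec, Matrix.smul_mulVec, dotProduct_add, dotProduct_smul]
  simp

lemma trace_conj (g : Matrix.unitaryGroup ι ℂ) (X : Matrix ι ι ℂ) :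
    (g.1 * X * (g⁻¹).1).trace = X.trace := by
  rw [Matrix.trace_mul_comm, ← Matrix.mul_assoc, ← Matrix.UnitaryGroup.mul_val, inv_mul_cancel]
  simp

lemma mu0_hyper : IsHyperHamiltonian G0 mu0 := by
  refine ⟨fun g _ u v => gR_actA g u v, fun g _ a u => actA_cs g a u, ?_, ?_, ?_⟩
  · intro a X _ Y _ r s p
    unfold mu0
    split_ifs
    · rw [muR_lin, Matrix.trace_add, Matrix.trace_smul, Matrix.trace_smul]
      simp
      ring
    · rw [muC_lin]
      simp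
    · rw [muC_lin]
      simp
  · intro a X hX p v
    unfold mu0 cs
    split_ifs
    · exact (muR_deriv (lieAlg_skew G0 hX) p v).add_const _
    · exact muC_deriv_re X p v
    · exact muC_deriv_im X p v
  · intro a g _ X _ p
    unfold mu0
    rw [muR_actA, muC_actA, trace_conj]

lemma lieAlg_smul (G : Subgroup (Matrix.unitaryGroup ι ℂ)) {X : Matrix ι ι ℂ}
    (hX : X ∈ lieAlg G) (r : ℝ) : r • X ∈ lieAlg G := by
  obtain ⟨γ, h1, h2, h3⟩ := hX
  refine ⟨fun s => γ (r * s), fun s => h1 _, by simp [h2], ?_⟩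
  intro i j
  have h4 : HasDerivAt (fun s : ℝ => r * s) r 0 := by
    simpa using (hasDerivAt_id (0 : ℝ)).const_mul r
  have h5 : HasDerivAt (fun s => (γ s).1 i j) (X i j) (r * 0) := by
    rw [mul_zero]
    exact h3 i j
  exact h5.scomp (0 : ℝ) h4

/-- An orthonormal basis of the Lie algebra of `G0`. -/
def e0 (j : Fin 4) : Matrix (Fin 2 ⊕ Fin 2) (Fin 2 ⊕ Fin 2) ℂ :=
  if j = 0 then (Real.sqrt 2)⁻¹ • gT else if j = 1 then (2⁻¹ : ℝ) • gD
    else if j = 2 then (2⁻¹ : ℝ) • gE else (2⁻¹ : ℝ) • gS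

/-- Relations satisfied by all elements of the Lie algebra of `G0`. -/
lemma lieAlg_rel {X : Matrix (Fin 2 ⊕ Fin 2) (Fin 2 ⊕ Fin 2) ℂ} (hX : X ∈ lieAlg G0) :
    (∀ i j, X (Sum.inr i) (Sum.inl j) = 0 ∧ X (Sum.inl i) (Sum.inr j) = 0) ∧
    (∀ i j k l, X (Sum.inl i) (Sum.inl j) * (1 : Matrix (Fin 2) (Fin 2) ℂ) k l
      + (1 : Matrix (Fin 2) (Fin 2) ℂ) i j * X (Sum.inr k) (Sum.inr l)
      = X (Sum.inr i) (Sum.inr j) * (1 : Matrix (Fin 2) (Fin 2) ℂ) k l
      + (1 : Matrix (Fin 2) (Fin 2) ℂ) i j * X (Sum.inl k) (Sum.inl l)) ∧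
    X (Sum.inr 0) (Sum.inr 0) + X (Sum.inr 1) (Sum.inr 1) = 0 := by
  obtain ⟨γ, h1, h2, h3⟩ := hX
  have h0 : ∀ i j, (γ 0).1 i j = (1 : Matrix (Fin 2 ⊕ Fin 2) (Fin 2 ⊕ Fin 2) ℂ) i j := by
    intro i j
    rw [h2]
    rfl
  have h0l : ∀ i j, (γ 0).1 (Sum.inl i) (Sum.inl j) = (1 : Matrix (Fin 2) (Fin 2) ℂ) i j := by
    intro i j
    rw [h0, ← Matrix.fromBlocks_one]
    rfl
  have h0r : ∀ i j, (γ 0).1 (Sum.inr i) (Sum.inr j) = (1 : Matrix (Fin 2) (Fin 2) ℂ) i j := by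
    intro i j
    rw [h0, ← Matrix.fromBlocks_one]
    rfl
  refine ⟨?_, ?_, ?_⟩
  · intro i j
    constructor
    · have hd := h3 (Sum.inr i) (Sum.inl j)
      have : (fun s => (γ s).1 (Sum.inr i) (Sum.inl j)) = fun _ => 0 := by
        funext s
        obtain ⟨h, t, -, -, -, hu⟩ := mem_G0 (h1 s)
        rw [hu, Matrix.fromBlocks_apply₂₁]
        rfl
      rw [this] at hd
      exact hd.unique (hasDerivAt_const _ _)
    · have hd := h3 (Sum.inl i) (Sum.inr j)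
      have : (fun s => (γ s).1 (Sum.inl i) (Sum.inr j)) = fun _ => 0 := by
        funext s
        obtain ⟨h, t, -, -, -, hu⟩ := mem_G0 (h1 s)
        rw [hu, Matrix.fromBlocks_apply₁₂]
        rfl
      rw [this] at hd
      exact hd.unique (hasDerivAt_const _ _)
  · intro i j k l
    have hd1 := (h3 (Sum.inl i) (Sum.inl j)).fun_mul (h3 (Sum.inr k) (Sum.inr l))
    have hd2 := (h3 (Sum.inr i) (Sum.inr j)).fun_mul (h3 (Sum.inl k) (Sum.inl l))
    have : (fun s => (γ s).1 (Sum.inl i) (Sum.inl j) * (γ s).1 (Sum.inr k) (Sum.inr l))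
        = fun s => (γ s).1 (Sum.inr i) (Sum.inr j) * (γ s).1 (Sum.inl k) (Sum.inl l) := by
      funext s
      obtain ⟨h, t, -, -, -, hu⟩ := mem_G0 (h1 s)
      rw [hu]
      simp only [Matrix.fromBlocks_apply₁₁, Matrix.fromBlocks_apply₂₂, Matrix.smul_apply,
        smul_eq_mul]
      ring
    rw [this] at hd1
    have h4 := hd1.unique hd2
    rw [h0l, h0r, h0l, h0r] at h4
    exact h4
  · have hd := ((h3 (Sum.inr 0) (Sum.inr 0)).fun_mul (h3 (Sum.inr 1) (Sum.inr 1))).fun_sub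
      ((h3 (Sum.inr 0) (Sum.inr 1)).fun_mul (h3 (Sum.inr 1) (Sum.inr 0)))
    have : (fun s => (γ s).1 (Sum.inr 0) (Sum.inr 0) * (γ s).1 (Sum.inr 1) (Sum.inr 1)
        - (γ s).1 (Sum.inr 0) (Sum.inr 1) * (γ s).1 (Sum.inr 1) (Sum.inr 0)) = fun _ => 1 := by
      funext s
      obtain ⟨h, t, -, hdet, -, hu⟩ := mem_G0 (h1 s)
      rw [hu]
      simp only [Matrix.fromBlocks_apply₂₂]
      rw [Matrix.det_fin_two] at hdet
      exact hdet
    rw [this] at hd
    have h4 := (hasDerivAt_const (0 : ℝ) (1 : ℂ)).unique hd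
    simp only [h0r] at h4
    simp at h4
    linear_combination -h4

lemma e0_orth (j k : Fin 4) : (e0 j * (e0 k)ᴴ).trace.re = if j = k then 1 else 0 := by
  have h2 : (Real.sqrt 2)⁻¹ * (Real.sqrt 2)⁻¹ = (2⁻¹ : ℝ) := by
    rw [← mul_inv, Real.mul_self_sqrt (by norm_num)]
  fin_cases j <;> fin_cases k <;>
    simp [e0, gT, gD, gE, gS, Matrix.trace, Matrix.mul_apply, Matrix.fromBlocks_conjTranspose,
      Fin.sum_univ_two, Matrix.conjTranspose_apply, Fintype.sum_sum_type]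
  · have h3 := Real.mul_self_sqrt (show (0 : ℝ) ≤ 2 by norm_num)
    linear_combination (1 / 2) * h3
  · norm_num
  · norm_num
  · norm_num

lemma e0_span {X : Matrix (Fin 2 ⊕ Fin 2) (Fin 2 ⊕ Fin 2) ℂ} (hX : X ∈ lieAlg G0) :
    ∃ c : Fin 4 → ℝ, X = ∑ j, c j • e0 j := by
  obtain ⟨h1, h2, h3⟩ := lieAlg_rel hX
  have hs := lieAlg_skew G0 hX
  have hs' : ∀ i j, star (X j i) = -X i j := by
    intro i j
    have := congrFun (congrFun hs i) j
    rwa [Matrix.conjTranspose_apply, Matrix.neg_apply] at this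
  let θ : ℝ := (X (Sum.inl 0) (Sum.inl 0)).im - (X (Sum.inr 0) (Sum.inr 0)).im
  let α : ℝ := (X (Sum.inr 0) (Sum.inr 0)).im
  let β : ℂ := X (Sum.inr 0) (Sum.inr 1)
  refine ⟨![Real.sqrt 2 * θ, 2 * α, 2 * β.re, 2 * β.im], ?_⟩
  have hsum : ∑ j, (![Real.sqrt 2 * θ, 2 * α, 2 * β.re, 2 * β.im] : Fin 4 → ℝ) j • e0 j
      = θ • gT + α • gD + β.re • gE + β.im • gS := by
    have hne : Real.sqrt 2 ≠ 0 := by positivity
    have z0 : e0 0 = (Real.sqrt 2)⁻¹ • gT := by simp [e0]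
    have z1 : e0 1 = (2⁻¹ : ℝ) • gD := by simp [e0]
    have z2 : e0 2 = (2⁻¹ : ℝ) • gE := by simp [e0]
    have z3 : e0 3 = (2⁻¹ : ℝ) • gS := by simp [e0]
    rw [Fin.sum_univ_four, z0, z1, z2, z3]
    simp only [Matrix.cons_val_zero, Matrix.cons_val_one, Matrix.cons_val]
    rw [smul_smul, smul_smul, smul_smul, smul_smul]
    congr 1
    · congr 1
      · congr 1
        · congr 1
          field_simp
        · congr 1
          ring
      · congr 1
        ring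
    · congr 1
      ring
  rw [hsum]
  have d0 : ∀ i, (X i i).re = 0 := by
    intro i
    have := congrArg Complex.re (hs' i i)
    simp at this
    linarith
  have r1 := h2 0 1 0 0
  have r2 := h2 1 0 0 0
  have r3 := h2 0 0 1 1
  simp at r1 r2 r3
  have b10 : X (Sum.inr 1) (Sum.inr 0) = -star β := by
    have := hs' (Sum.inr 1) (Sum.inr 0)
    rw [show X (Sum.inr 0) (Sum.inr 1) = β from rfl] at this
    rw [this, neg_neg]
  have b11 : X (Sum.inr 1) (Sum.inr 1) = -X (Sum.inr 0) (Sum.inr 0) := by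
    linear_combination h3
  ext i j
  rcases i with i | i <;> rcases j with j | j
  · fin_cases i <;> fin_cases j
    · apply Complex.ext
      · simp [gT, gD, gE, gS, d0]
      · simp [gT, gD, gE, gS, θ, α]
    · show X (Sum.inl 0) (Sum.inl 1) = _
      rw [r1]
      apply Complex.ext <;> simp [gT, gD, gE, gS, β]
    · show X (Sum.inl 1) (Sum.inl 0) = _
      rw [r2, b10]
      apply Complex.ext <;> simp [gT, gD, gE, gS, β]
    · show X (Sum.inl 1) (Sum.inl 1) = _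
      have r4 : X (Sum.inl 1) (Sum.inl 1)
          = X (Sum.inl 0) (Sum.inl 0) + X (Sum.inr 1) (Sum.inr 1) - X (Sum.inr 0) (Sum.inr 0) := by
        linear_combination -r3
      rw [r4, b11]
      apply Complex.ext
      · simp [gT, gD, gE, gS, d0]
      · simp [gT, gD, gE, gS, θ, α]
        ring
  · rw [(h1 i j).2]
    simp [gT, gD, gE, gS]
  · rw [(h1 i j).1]
    simp [gT, gD, gE, gS]
  · fin_cases i <;> fin_cases j
    · apply Complex.ext
      · simp [gT, gD, gE, gS, d0]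
      · simp [gT, gD, gE, gS, α]
    · show X (Sum.inr 0) (Sum.inr 1) = _
      apply Complex.ext <;> simp [gT, gD, gE, gS, β]
    · show X (Sum.inr 1) (Sum.inr 0) = _
      rw [b10]
      apply Complex.ext <;> simp [gT, gD, gE, gS, β]
    · show X (Sum.inr 1) (Sum.inr 1) = _
      rw [b11]
      apply Complex.ext
      · simp [gT, gD, gE, gS, d0]
      · simp [gT, gD, gE, gS, α]

lemma e0_mem (j : Fin 4) : e0 j ∈ lieAlg G0 := by
  unfold e0
  split_ifs
  · exact lieAlg_smul G0 mem_lieAlg_theta _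
  · exact lieAlg_smul G0 mem_lieAlg_D _
  · exact lieAlg_smul G0 mem_lieAlg_R _
  · exact lieAlg_smul G0 mem_lieAlg_S _

lemma e0_basis : IsOrthonormalBasis G0 e0 := ⟨e0_mem, e0_orth, fun _ hX => e0_span hX⟩


/-! Properness of `f` and compactness of trajectories. -/

lemma muR_contDiff (X : Matrix ι ι ℂ) :
    ContDiff ℝ 1 (fun p : (ι → ℂ) × (ι → ℂ) => muR X p) := by
  have h : (fun p : (ι → ℂ) × (ι → ℂ) => muR X p) = fun p : (ι → ℂ) × (ι → ℂ) =>
      Complex.reCLM (Complex.I / 2 * ((∑ i, Complex.conjCLE (p.1 i) * ∑ j, X i j * p.1 j)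
        - ∑ i, p.2 i * ∑ j, X i j * Complex.conjCLE (p.2 j))) := rfl
  rw [h]
  fun_prop

lemma muC_contDiff (X : Matrix ι ι ℂ) :
    ContDiff ℝ 1 (fun p : (ι → ℂ) × (ι → ℂ) => muC X p) := by
  have h : (fun p : (ι → ℂ) × (ι → ℂ) => muC X p) = fun p : (ι → ℂ) × (ι → ℂ) =>
      ∑ i, p.2 i * ∑ j, X i j * p.1 j := rfl
  rw [h]
  fun_prop

/-- The homogeneous part of `f`. -/
def hom0 (p : (Fin 2 ⊕ Fin 2 → ℂ) × (Fin 2 ⊕ Fin 2 → ℂ)) : ℝ :=
  ∑ j, (muR (e0 j) p ^ 2 + (muC (e0 j) p).re ^ 2 + (muC (e0 j) p).im ^ 2)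

lemma hom0_continuous : Continuous hom0 := by
  have h1 : ∀ j, Continuous (fun p : (Fin 2 ⊕ Fin 2 → ℂ) × (Fin 2 ⊕ Fin 2 → ℂ) => muR (e0 j) p) :=
    fun j => (muR_contDiff (e0 j)).continuous
  have h2 : ∀ j, Continuous (fun p : (Fin 2 ⊕ Fin 2 → ℂ) × (Fin 2 ⊕ Fin 2 → ℂ) => muC (e0 j) p) :=
    fun j => (muC_contDiff (e0 j)).continuous
  unfold hom0
  fun_prop

lemma muR_real_smul (X : Matrix ι ι ℂ) (p : (ι → ℂ) × (ι → ℂ)) (s : ℝ) :
    muR X (s • p) = s ^ 2 * muR X p := by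
  have h1 : (s • p).1 = (s : ℂ) • p.1 := by
    funext i
    simp
  have h2 : (s • p).2 = (s : ℂ) • p.2 := by
    funext i
    simp
  have h3 : ∀ u : ι → ℂ, star ((s : ℂ) • u) = (s : ℂ) • star u := by
    intro u
    funext i
    simp
  show (Complex.I / 2 * (star (s • p).1 ⬝ᵥ (X *ᵥ (s • p).1)
    - (s • p).2 ⬝ᵥ (X *ᵥ star (s • p).2))).re
    = s ^ 2 * (Complex.I / 2 * (star p.1 ⬝ᵥ (X *ᵥ p.1) - p.2 ⬝ᵥ (X *ᵥ star p.2))).re
  rw [h1, h2, h3, h3]
  simp only [Matrix.mulVec_smul, smul_dotProduct, dotProduct_smul, smul_eq_mul]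
  rw [← Complex.re_ofReal_mul]
  congr 1
  push_cast
  ring

lemma muC_real_smul (X : Matrix ι ι ℂ) (p : (ι → ℂ) × (ι → ℂ)) (s : ℝ) :
    muC X (s • p) = (s : ℂ) ^ 2 * muC X p := by
  have h1 : (s • p).1 = (s : ℂ) • p.1 := by
    funext i
    simp
  have h2 : (s • p).2 = (s : ℂ) • p.2 := by
    funext i
    simp
  show (s • p).2 ⬝ᵥ (X *ᵥ (s • p).1) = (s : ℂ) ^ 2 * (p.2 ⬝ᵥ (X *ᵥ p.1))
  rw [h1, h2]
  simp only [Matrix.mulVec_smul, smul_dotProduct, dotProduct_smul, smul_eq_mul]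
  ring

lemma hom0_smul (s : ℝ) (p : (Fin 2 ⊕ Fin 2 → ℂ) × (Fin 2 ⊕ Fin 2 → ℂ)) :
    hom0 (s • p) = s ^ 4 * hom0 p := by
  unfold hom0
  rw [Finset.mul_sum]
  refine Finset.sum_congr rfl fun j _ => ?_
  rw [muR_real_smul, muC_real_smul, ← Complex.ofReal_pow, Complex.re_ofReal_mul,
    Complex.im_ofReal_mul]
  ring

lemma muR_zero_of_smul {X : Matrix ι ι ℂ} {p : TA ι} {r : ℝ} (hr : r ≠ 0)
    (h : muR (r • X) p = 0) : muR X p = 0 := by
  have h1 := muR_lin X 0 r 0 p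
  rw [smul_zero, add_zero, h, zero_mul, add_zero] at h1
  exact (mul_eq_zero.1 h1.symm).resolve_left hr

lemma muC_zero_of_smul {X : Matrix ι ι ℂ} {p : TA ι} {r : ℝ} (hr : r ≠ 0)
    (h : muC (r • X) p = 0) : muC X p = 0 := by
  have h1 := muC_lin X 0 r 0 p
  rw [smul_zero, add_zero, h, Complex.ofReal_zero, zero_mul, add_zero] at h1
  exact (mul_eq_zero.1 h1.symm).resolve_left (by exact_mod_cast hr)

lemma hom0_pos (p : (Fin 2 ⊕ Fin 2 → ℂ) × (Fin 2 ⊕ Fin 2 → ℂ)) (hp : p ≠ 0) : 0 < hom0 p := by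
  have hnn : ∀ j ∈ (Finset.univ : Finset (Fin 4)),
      0 ≤ muR (e0 j) p ^ 2 + (muC (e0 j) p).re ^ 2 + (muC (e0 j) p).im ^ 2 := fun j _ => by positivity
  have h0 : 0 ≤ hom0 p := Finset.sum_nonneg hnn
  refine lt_of_le_of_ne h0 fun h => hp ?_
  have hz := (Finset.sum_eq_zero_iff_of_nonneg hnn).1 h.symm
  have hR : ∀ j, muR (e0 j) p = 0 := by
    intro j
    have := hz j (Finset.mem_univ j)
    nlinarith [sq_nonneg (muR (e0 j) p), sq_nonneg (muC (e0 j) p).re, sq_nonneg (muC (e0 j) p).im]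
  have hC : ∀ j, muC (e0 j) p = 0 := by
    intro j
    have := hz j (Finset.mem_univ j)
    apply Complex.ext
    · show (muC (e0 j) p).re = 0
      nlinarith [sq_nonneg (muR (e0 j) p), sq_nonneg (muC (e0 j) p).re, sq_nonneg (muC (e0 j) p).im]
    · show (muC (e0 j) p).im = 0
      nlinarith [sq_nonneg (muR (e0 j) p), sq_nonneg (muC (e0 j) p).re, sq_nonneg (muC (e0 j) p).im]
  have z0 : e0 0 = (Real.sqrt 2)⁻¹ • gT := by simp [e0]
  have z1 : e0 1 = (2⁻¹ : ℝ) • gD := by simp [e0]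
  have z2 : e0 2 = (2⁻¹ : ℝ) • gE := by simp [e0]
  have z3 : e0 3 = (2⁻¹ : ℝ) • gS := by simp [e0]
  have n0 : (Real.sqrt 2)⁻¹ ≠ 0 := by positivity
  have n1 : (2⁻¹ : ℝ) ≠ 0 := by norm_num
  obtain ⟨h1, h2⟩ := homogeneous_zero p
    (muR_zero_of_smul n0 (z0 ▸ hR 0)) (muC_zero_of_smul n0 (z0 ▸ hC 0))
    (muR_zero_of_smul n1 (z1 ▸ hR 1)) (muC_zero_of_smul n1 (z1 ▸ hC 1))
    (muR_zero_of_smul n1 (z2 ▸ hR 2)) (muC_zero_of_smul n1 (z2 ▸ hC 2))
    (muR_zero_of_smul n1 (z3 ▸ hR 3)) (muC_zero_of_smul n1 (z3 ▸ hC 3))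
  exact Prod.ext h1 h2

lemma hom0_lower : ∃ m : ℝ, 0 < m ∧ ∀ p : (Fin 2 ⊕ Fin 2 → ℂ) × (Fin 2 ⊕ Fin 2 → ℂ),
    m * ‖p‖ ^ 4 ≤ hom0 p := by
  have hcomp : IsCompact (Metric.sphere (0 : (Fin 2 ⊕ Fin 2 → ℂ) × (Fin 2 ⊕ Fin 2 → ℂ)) 1) :=
    isCompact_sphere _ _
  have hne : (Metric.sphere (0 : (Fin 2 ⊕ Fin 2 → ℂ) × (Fin 2 ⊕ Fin 2 → ℂ)) 1).Nonempty :=
    NormedSpace.sphere_nonempty.2 zero_le_one
  obtain ⟨q, hq, hmin⟩ := hcomp.exists_isMinOn hne hom0_continuous.continuousOn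
  have hq0 : q ≠ 0 := by
    intro h
    rw [h] at hq
    simp at hq
  refine ⟨hom0 q, hom0_pos q hq0, ?_⟩
  intro p
  by_cases hp : p = 0
  · rw [hp]
    have : hom0 (0 : (Fin 2 ⊕ Fin 2 → ℂ) × (Fin 2 ⊕ Fin 2 → ℂ)) = 0 := by
      have := hom0_smul 0 0
      simpa using this
    rw [this]
    simp
  · have hn : ‖p‖ ≠ 0 := norm_ne_zero_iff.2 hp
    have h1 : ‖p‖⁻¹ • p ∈ Metric.sphere (0 : (Fin 2 ⊕ Fin 2 → ℂ) × (Fin 2 ⊕ Fin 2 → ℂ)) 1 := by
      rw [mem_sphere_zero_iff_norm, norm_smul, norm_inv, norm_norm, inv_mul_cancel₀ hn]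
    have h2 : hom0 q ≤ hom0 (‖p‖⁻¹ • p) := hmin h1
    rw [hom0_smul] at h2
    have h3 : 0 < ‖p‖ ^ 4 := by positivity
    calc hom0 q * ‖p‖ ^ 4 ≤ (‖p‖⁻¹ ^ 4 * hom0 p) * ‖p‖ ^ 4 :=
          mul_le_mul_of_nonneg_right h2 h3.le
      _ = hom0 p := by
          field_simp


lemma f0_contDiff : ContDiff ℝ 1 (fun p : (Fin 2 ⊕ Fin 2 → ℂ) × (Fin 2 ⊕ Fin 2 → ℂ) =>
    normSqMoment mu0 e0 p) := by
  have h1 : ∀ j, ContDiff ℝ 1
      (fun p : (Fin 2 ⊕ Fin 2 → ℂ) × (Fin 2 ⊕ Fin 2 → ℂ) => muR (e0 j) p) :=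
    fun j => muR_contDiff (e0 j)
  have h2 : ∀ j, ContDiff ℝ 1
      (fun p : (Fin 2 ⊕ Fin 2 → ℂ) × (Fin 2 ⊕ Fin 2 → ℂ) => (muC (e0 j) p).re) :=
    fun j => Complex.reCLM.contDiff.comp (muC_contDiff (e0 j))
  have h3 : ∀ j, ContDiff ℝ 1
      (fun p : (Fin 2 ⊕ Fin 2 → ℂ) × (Fin 2 ⊕ Fin 2 → ℂ) => (muC (e0 j) p).im) :=
    fun j => Complex.imCLM.contDiff.comp (muC_contDiff (e0 j))
  have h : (fun p : (Fin 2 ⊕ Fin 2 → ℂ) × (Fin 2 ⊕ Fin 2 → ℂ) => normSqMoment mu0 e0 p)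
      = fun p => ∑ j, (muR (e0 j) p + (e0 j).trace.im / 4) ^ 2 + ∑ j, (muC (e0 j) p).re ^ 2
        + ∑ j, (muC (e0 j) p).im ^ 2 := by
    funext p
    show ∑ a : Fin 3, ∑ j, mu0 a (e0 j) p ^ 2 = _
    rw [Fin.sum_univ_three]
    rfl
  rw [h]
  fun_prop

lemma f0_lower (p : (Fin 2 ⊕ Fin 2 → ℂ) × (Fin 2 ⊕ Fin 2 → ℂ)) :
    hom0 p / 2 - ∑ j, ((e0 j).trace.im / 4) ^ 2 ≤ normSqMoment mu0 e0 p := by
  have h : normSqMoment mu0 e0 p = ∑ j, (muR (e0 j) p + (e0 j).trace.im / 4) ^ 2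
      + ∑ j, (muC (e0 j) p).re ^ 2 + ∑ j, (muC (e0 j) p).im ^ 2 := by
    show ∑ a : Fin 3, ∑ j, mu0 a (e0 j) p ^ 2 = _
    rw [Fin.sum_univ_three]
    rfl
  rw [h, hom0, Finset.sum_div, ← Finset.sum_sub_distrib, ← Finset.sum_add_distrib,
    ← Finset.sum_add_distrib]
  refine Finset.sum_le_sum fun j _ => ?_
  nlinarith [sq_nonneg (muR (e0 j) p + 2 * ((e0 j).trace.im / 4)), sq_nonneg (muC (e0 j) p).re,
    sq_nonneg (muC (e0 j) p).im]

/-- The sublevel sets of `f` are compact, that is, `f` is proper. -/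
lemma sublevel_compact (C : ℝ) :
    IsCompact {p : (Fin 2 ⊕ Fin 2 → ℂ) × (Fin 2 ⊕ Fin 2 → ℂ) | normSqMoment mu0 e0 p ≤ C} := by
  obtain ⟨m, hm, hlow⟩ := hom0_lower
  have hclosed : IsClosed {p : (Fin 2 ⊕ Fin 2 → ℂ) × (Fin 2 ⊕ Fin 2 → ℂ) |
      normSqMoment mu0 e0 p ≤ C} := isClosed_le f0_contDiff.continuous continuous_const
  have hsub : {p : (Fin 2 ⊕ Fin 2 → ℂ) × (Fin 2 ⊕ Fin 2 → ℂ) | normSqMoment mu0 e0 p ≤ C}
      ⊆ Metric.closedBall 0
        (1 + 2 * (C + ∑ j, ((e0 j).trace.im / 4) ^ 2) / m) := by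
    intro p hp
    rw [mem_closedBall_zero_iff]
    have h1 := f0_lower p
    have h2 := hlow p
    have hp' : normSqMoment mu0 e0 p ≤ C := hp
    have h3 : m * ‖p‖ ^ 4 ≤ 2 * (C + ∑ j, ((e0 j).trace.im / 4) ^ 2) := by linarith
    have h4 : ‖p‖ ^ 4 ≤ 2 * (C + ∑ j, ((e0 j).trace.im / 4) ^ 2) / m := by
      rw [le_div_iff₀ hm]
      linarith
    have h5 : ‖p‖ ≤ 1 + ‖p‖ ^ 4 := by
      have := norm_nonneg p
      nlinarith [sq_nonneg (‖p‖ ^ 2 - 1), sq_nonneg (‖p‖ - 1), sq_nonneg (‖p‖ ^ 2)]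
    linarith
  exact (ProperSpace.isCompact_closedBall _ _).of_isClosed_subset hclosed hsub

lemma gR_self_nonneg (w : TA ι) : 0 ≤ gR w w := by
  unfold gR
  have h : ∀ u : ι → ℂ, 0 ≤ (star u ⬝ᵥ u).re := by
    intro u
    rw [dotProduct, Complex.re_sum]
    refine Finset.sum_nonneg fun i _ => ?_
    show 0 ≤ (star (u i) * u i).re
    rw [Complex.star_def, mul_comm, Complex.mul_conj, Complex.ofReal_re]
    exact Complex.normSq_nonneg _
  rw [Complex.add_re]
  exact add_nonneg (h _) (h _)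

lemma gR_neg_right (w v : TA ι) :
    gR w ((fun i => -v.1 i, fun i => -v.2 i) : TA ι) = -gR w v := by
  unfold gR
  show (star w.1 ⬝ᵥ (-v.1) + star w.2 ⬝ᵥ (-v.2)).re = _
  rw [dotProduct_neg, dotProduct_neg, ← neg_add, Complex.neg_re]

/-- A differentiable function decreases along the trajectories of its negative gradient flow. -/
lemma trajectory_le (f : (ι → ℂ) × (ι → ℂ) → ℝ) (hf : ContDiff ℝ 1 f) (T : ℝ)
    (c : ℝ → (ι → ℂ) × (ι → ℂ))
    (hc : IsTrajectory (ι := ι) f T c) (t : ℝ) (h0 : 0 ≤ t) (hT : t < T) : f (c t) ≤ f (c 0) := by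
  have key : ∀ s, 0 ≤ s → s < T → ∃ d : ℝ, d ≤ 0 ∧
      HasDerivWithinAt (fun s => f (c s)) d (Set.Ici 0) s := by
    intro s hs0 hsT
    obtain ⟨w, hw, h1, h2⟩ := hc s hs0 hsT
    let v : (ι → ℂ) × (ι → ℂ) := (fun i => -w.1 i, fun i => -w.2 i)
    have hF : HasFDerivAt f (fderiv ℝ f (c s)) (c s) :=
      ((hf.differentiable one_ne_zero) (c s)).hasFDerivAt
    have hc' : HasDerivWithinAt c v (Set.Ici 0) s :=
      (hasDerivWithinAt_pi.2 h1).prodMk (hasDerivWithinAt_pi.2 h2)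
    have hcomp := hF.comp_hasDerivWithinAt s hc'
    refine ⟨_, ?_, hcomp⟩
    have hline : HasDerivAt (fun t : ℝ => c s + t • v) v 0 := by
      simpa using ((hasDerivAt_id (0 : ℝ)).smul_const v).const_add (c s)
    have hF' : HasFDerivAt f (fderiv ℝ f (c s)) (c s + (0 : ℝ) • v) := by
      rw [zero_smul, add_zero]
      exact hF
    have h3 := hF'.comp_hasDerivAt (0 : ℝ) hline
    have h4 : HasDerivAt (fun t : ℝ => f (line (c s) v t)) (gR w v) 0 := hw v
    have h5 : (f ∘ fun t : ℝ => c s + t • v) = fun t : ℝ => f (line (c s) v t) := by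
      funext t
      show f _ = f _
      congr 1
    rw [h5] at h3
    have h6 : gR w v = -gR w w := gR_neg_right w w
    rw [h3.unique h4, h6]
    linarith [gR_self_nonneg w]
  choose! d hd using key
  have hanti : AntitoneOn (fun s => f (c s)) (Set.Ico 0 T) := by
    apply antitoneOn_of_hasDerivWithinAt_nonpos (convex_Ico 0 T) (f' := d)
    · intro s hs
      exact ((hd s hs.1 hs.2).2.continuousWithinAt).mono fun x hx => hx.1
    · rw [interior_Ico]
      intro s hs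
      exact (hd s hs.1.le hs.2).2.mono fun x hx => hx.1.le
    · rw [interior_Ico]
      intro s hs
      exact (hd s hs.1.le hs.2).1
  exact hanti ⟨le_refl 0, lt_of_le_of_lt h0 hT⟩ ⟨h0, hT⟩ h0

lemma compact_trajectories (x : TA (Fin 2 ⊕ Fin 2)) : ∃ K : Set (TA (Fin 2 ⊕ Fin 2)),
    IsCompact K ∧ ∀ (T : ℝ) (c : ℝ → TA (Fin 2 ⊕ Fin 2)), c 0 = x →
      IsTrajectory (normSqMoment mu0 e0) T c → ∀ t, 0 ≤ t → t < T → c t ∈ K := by
  refine ⟨{p | normSqMoment mu0 e0 p ≤ normSqMoment mu0 e0 x}, sublevel_compact _, ?_⟩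
  intro T c hc0 hc t h0 hT
  have := trajectory_le (fun p => normSqMoment mu0 e0 p) f0_contDiff T c hc t h0 hT
  rw [hc0] at this
  exact this


/-! Sanity check: the gradient of `f` exists and is `2 ∑ μ_a(e_j) I_a (e_j p)`. -/

/-- The vector field `2 ∑ μ_a(e_j) I_a (e_j p)`. -/
def gradVec (μ : Fin 3 → Matrix ι ι ℂ → TA ι → ℝ) {d : ℕ} (e : Fin d → Matrix ι ι ℂ)
    (p : TA ι) : TA ι :=
  (∑ a, ∑ j, (2 * μ a (e j) p) • (cs a (inf (e j) p)).1,
    ∑ a, ∑ j, (2 * μ a (e j) p) • (cs a (inf (e j) p)).2)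

lemma isGradient_gradVec {G : Subgroup (Matrix.unitaryGroup ι ℂ)}
    {μ : Fin 3 → Matrix ι ι ℂ → TA ι → ℝ} (hμ : IsHyperHamiltonian G μ) {d : ℕ}
    (e : Fin d → Matrix ι ι ℂ) (he : ∀ j, e j ∈ lieAlg G) (p : TA ι) :
    IsGradient (normSqMoment μ e) p (gradVec μ e p) := by
  intro v
  have h1 : ∀ a j, HasDerivAt (fun t : ℝ => μ a (e j) (line p v t) ^ 2)
      (2 * μ a (e j) p * gR (cs a (inf (e j) p)) v) 0 := by
    intro a j
    have h := (hμ.2.2.2.1 a (e j) (he j) p v).fun_pow 2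
    have h0 : line p v 0 = p := by
      apply Prod.ext <;> funext i
      · show p.1 i + ((0 : ℝ) : ℂ) * v.1 i = p.1 i
        simp
      · show p.2 i + ((0 : ℝ) : ℂ) * v.2 i = p.2 i
        simp
    rw [h0] at h
    simpa using h
  have h2 : HasDerivAt (fun t : ℝ => ∑ a, ∑ j, μ a (e j) (line p v t) ^ 2)
      (∑ a, ∑ j, 2 * μ a (e j) p * gR (cs a (inf (e j) p)) v) 0 :=
    HasDerivAt.fun_sum fun a _ => HasDerivAt.fun_sum fun j _ => h1 a j
  have hs : ∀ (r : ℝ) (u w : ι → ℂ), (star (r • u) ⬝ᵥ w) = (r : ℂ) * (star u ⬝ᵥ w) := by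
    intro r u w
    rw [dotProduct, dotProduct, Finset.mul_sum]
    refine Finset.sum_congr rfl fun i _ => ?_
    simp
    ring
  have h3 : gR (gradVec μ e p) v = ∑ a, ∑ j, 2 * μ a (e j) p * gR (cs a (inf (e j) p)) v := by
    show (star (∑ a, ∑ j, (2 * μ a (e j) p) • (cs a (inf (e j) p)).1) ⬝ᵥ v.1
      + star (∑ a, ∑ j, (2 * μ a (e j) p) • (cs a (inf (e j) p)).2) ⬝ᵥ v.2).re = _
    simp only [star_sum, sum_dotProduct, hs]
    rw [← Finset.sum_add_distrib, Complex.re_sum]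
    refine Finset.sum_congr rfl fun a _ => ?_
    rw [← Finset.sum_add_distrib, Complex.re_sum]
    refine Finset.sum_congr rfl fun j _ => ?_
    rw [← mul_add, Complex.re_ofReal_mul]
    rfl
  rw [h3]
  exact h2

/-! The two sheets of the level set. -/

/-- The function `|a₂|² - |b₂|²`. -/
def sheet (p : TA (Fin 2 ⊕ Fin 2)) : ℝ :=
  (p.1 (Sum.inr 0) * star (p.1 (Sum.inr 0)) + p.1 (Sum.inr 1) * star (p.1 (Sum.inr 1))
    - (p.2 (Sum.inr 0) * star (p.2 (Sum.inr 0)) + p.2 (Sum.inr 1) * star (p.2 (Sum.inr 1)))).re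

lemma sheet_continuous : Continuous sheet := by
  have h : Continuous fun p : (Fin 2 ⊕ Fin 2 → ℂ) × (Fin 2 ⊕ Fin 2 → ℂ) =>
    (p.1 (Sum.inr 0) * star (p.1 (Sum.inr 0)) + p.1 (Sum.inr 1) * star (p.1 (Sum.inr 1))
    - (p.2 (Sum.inr 0) * star (p.2 (Sum.inr 0)) + p.2 (Sum.inr 1) * star (p.2 (Sum.inr 1)))).re := by
    fun_prop
  exact h

lemma sheet_smul {u : Matrix.unitaryGroup (Fin 2 ⊕ Fin 2) ℂ} (hu : u ∈ G0)
    (p : TA (Fin 2 ⊕ Fin 2)) : sheet (actA u p) = sheet p := by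
  obtain ⟨h, t, h1, hdet, ht, hval⟩ := mem_G0 hu
  have h1' : hᴴ * h = 1 := _root_.mul_eq_one_comm.1 h1
  have e00 := congrFun (congrFun h1' 0) 0
  have e01 := congrFun (congrFun h1' 0) 1
  have e10 := congrFun (congrFun h1' 1) 0
  have e11 := congrFun (congrFun h1' 1) 1
  simp only [Matrix.mul_apply, Fin.sum_univ_two, Matrix.conjTranspose_apply, Matrix.one_apply_eq,
    Matrix.one_apply_ne (one_ne_zero (α := Fin 2)), Matrix.one_apply_ne (zero_ne_one (α := Fin 2))]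
    at e00 e01 e10 e11
  have hc : ∀ w : Fin 2 ⊕ Fin 2 → ℂ, ∀ i, (u.1 *ᵥ w) (Sum.inr i)
      = h i 0 * w (Sum.inr 0) + h i 1 * w (Sum.inr 1) := by
    intro w i
    rw [hval]
    simp [Matrix.mulVec, dotProduct, Fintype.sum_sum_type]
  have hc2 : ∀ i, (p.2 ᵥ* (u⁻¹).1) (Sum.inr i)
      = p.2 (Sum.inr 0) * star (h i 0) + p.2 (Sum.inr 1) * star (h i 1) := by
    intro i
    have h3 : (u⁻¹).1 = (u.1)ᴴ := rfl
    rw [h3, hval]
    simp [Matrix.vecMul, dotProduct, Fintype.sum_sum_type, Matrix.fromBlocks_conjTranspose]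
  show ((u.1 *ᵥ p.1) (Sum.inr 0) * star ((u.1 *ᵥ p.1) (Sum.inr 0))
    + (u.1 *ᵥ p.1) (Sum.inr 1) * star ((u.1 *ᵥ p.1) (Sum.inr 1))
    - ((p.2 ᵥ* (u⁻¹).1) (Sum.inr 0) * star ((p.2 ᵥ* (u⁻¹).1) (Sum.inr 0))
    + (p.2 ᵥ* (u⁻¹).1) (Sum.inr 1) * star ((p.2 ᵥ* (u⁻¹).1) (Sum.inr 1)))).re = sheet p
  rw [hc, hc, hc2, hc2, sheet]
  simp only [star_add, star_mul', star_star]
  congr 1
  linear_combination (p.1 (Sum.inr 0) * star (p.1 (Sum.inr 0))
      - p.2 (Sum.inr 0) * star (p.2 (Sum.inr 0))) * e00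
    + (p.1 (Sum.inr 1) * star (p.1 (Sum.inr 1)) - p.2 (Sum.inr 1) * star (p.2 (Sum.inr 1))) * e11
    + (p.1 (Sum.inr 1) * star (p.1 (Sum.inr 0)) - p.2 (Sum.inr 0) * star (p.2 (Sum.inr 1))) * e01
    + (p.1 (Sum.inr 0) * star (p.1 (Sum.inr 1)) - p.2 (Sum.inr 1) * star (p.2 (Sum.inr 0))) * e10

/-- A point of the level set with `b = 0`. -/
def ptA : TA (Fin 2 ⊕ Fin 2) := (Sum.elim ![1, 0] ![0, 1], Sum.elim ![0, 0] ![0, 0])

/-- A point of the level set with `a₂ = 0` and `b₁ = 0`. -/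
def ptB : TA (Fin 2 ⊕ Fin 2) := (Sum.elim ![1, 0] ![0, 0], Sum.elim ![0, 0] ![1, 0])


lemma level_dichotomy {p : TA (Fin 2 ⊕ Fin 2)} (hp : p ∈ zeroLevel G0 mu0) :
    (p.1 (Sum.inr 0) = 0 ∧ p.1 (Sum.inr 1) = 0 ∧
      p.2 (Sum.inr 0) * star (p.2 (Sum.inr 0)) + p.2 (Sum.inr 1) * star (p.2 (Sum.inr 1)) = 1) ∨
    (p.2 (Sum.inr 0) = 0 ∧ p.2 (Sum.inr 1) = 0 ∧
      p.1 (Sum.inr 0) * star (p.1 (Sum.inr 0)) + p.1 (Sum.inr 1) * star (p.1 (Sum.inr 1)) = 1) := by
  have hR : ∀ X ∈ lieAlg G0, muR X p = -(X.trace.im / 4) := by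
    intro X hX
    have h : muR X p + X.trace.im / 4 = 0 := hp 0 X hX
    linarith
  have hC : ∀ X ∈ lieAlg G0, muC X p = 0 := by
    intro X hX
    exact Complex.ext (hp 1 X hX) (hp 2 X hX)
  have tT : gT.trace.im = 2 := by
    simp [gT, Matrix.trace, Fintype.sum_sum_type, Fin.sum_univ_two]
  have tD : gD.trace.im = 0 := by
    simp [gD, Matrix.trace, Fintype.sum_sum_type, Fin.sum_univ_two]
  have tE : gE.trace.im = 0 := by
    simp [gE, Matrix.trace, Fintype.sum_sum_type, Fin.sum_univ_two]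
  have tS : gS.trace.im = 0 := by
    simp [gS, Matrix.trace, Fintype.sum_sum_type, Fin.sum_univ_two]
  obtain ⟨E1, E2, E3, E4, E5, E6, E7⟩ := level_eqs p 1
    (by rw [hR gT mem_lieAlg_theta, tT]; norm_num) (hC gT mem_lieAlg_theta)
    (by rw [hR gD mem_lieAlg_D, tD]; norm_num) (hC gD mem_lieAlg_D)
    (by rw [hR gE mem_lieAlg_R, tE]; norm_num) (hC gE mem_lieAlg_R)
    (by rw [hR gS mem_lieAlg_S, tS]; norm_num) (hC gS mem_lieAlg_S)
  exact (level_algebra _ _ _ _ _ _ _ _ E1 E2 E3 E4 E5 E6 (by rw [E7]; norm_num)).2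

lemma ptA_mem : ptA ∈ zeroLevel G0 mu0 := by
  intro a X hX
  obtain ⟨h1, h2, h3⟩ := lieAlg_rel hX
  have r3 := h2 0 0 1 1
  simp only [Matrix.one_apply_eq, mul_one, one_mul] at r3
  have r3' := congrArg Complex.im r3
  have h3' := congrArg Complex.im h3
  simp only [Complex.add_im, Complex.zero_im] at r3' h3'
  unfold mu0
  split_ifs
  · simp [muR, ptA, dotProduct, Matrix.mulVec, Fintype.sum_sum_type, Fin.sum_univ_two,
      Matrix.trace, Complex.mul_re, (h1 1 0).1, (h1 0 1).2]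
    linarith
  · simp [muC, ptA, dotProduct, Matrix.mulVec, Fintype.sum_sum_type, Fin.sum_univ_two]
  · simp [muC, ptA, dotProduct, Matrix.mulVec, Fintype.sum_sum_type, Fin.sum_univ_two]

lemma ptB_mem : ptB ∈ zeroLevel G0 mu0 := by
  intro a X hX
  obtain ⟨h1, h2, h3⟩ := lieAlg_rel hX
  have r3 := h2 0 0 1 1
  simp only [Matrix.one_apply_eq, mul_one, one_mul] at r3
  have r3' := congrArg Complex.im r3
  have h3' := congrArg Complex.im h3
  simp only [Complex.add_im, Complex.zero_im] at r3' h3'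
  unfold mu0
  split_ifs
  · simp [muR, ptB, dotProduct, Matrix.mulVec, Fintype.sum_sum_type, Fin.sum_univ_two,
      Matrix.trace, Complex.mul_re]
    linarith
  · simp [muC, ptB, dotProduct, Matrix.mulVec, Fintype.sum_sum_type, Fin.sum_univ_two,
      (h1 0 0).1]
  · simp [muC, ptB, dotProduct, Matrix.mulVec, Fintype.sum_sum_type, Fin.sum_univ_two,
      (h1 0 0).1]

lemma sheet_ne_zero (s : TA (Fin 2 ⊕ Fin 2)) (hs : s ∈ zeroLevel G0 mu0) : sheet s ≠ 0 := by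
  rcases level_dichotomy hs with h | h
  · rw [sheet, h.2.2, h.1, h.2.1]
    simp
  · rw [sheet, h.2.2, h.1, h.2.1]
    simp

/-- The straight path between two points of `T^*A`. -/
def seg (p q : TA (Fin 2 ⊕ Fin 2)) : C(ℝ, TA (Fin 2 ⊕ Fin 2)) where
  toFun t := (fun i => (1 - t) * p.1 i + t * q.1 i, fun i => (1 - t) * p.2 i + t * q.2 i)
  continuous_toFun := by
    have h : Continuous fun t : ℝ => ((fun i => (1 - (t : ℂ)) * p.1 i + t * q.1 i,
      fun i => (1 - (t : ℂ)) * p.2 i + t * q.2 i) : (Fin 2 ⊕ Fin 2 → ℂ) × (Fin 2 ⊕ Fin 2 → ℂ)) := by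
      fun_prop
    exact h

/-- `EU ι` is not empty. -/
lemma EU_nonempty : Nonempty (EU (Fin 2 ⊕ Fin 2)) := by
  let k : Fin 2 ⊕ Fin 2 → ℕ := fun i => (Fintype.equivFin (Fin 2 ⊕ Fin 2) i : ℕ)
  have hk : Function.Injective k := fun i j h =>
    (Fintype.equivFin (Fin 2 ⊕ Fin 2)).injective (Fin.ext h)
  refine ⟨⟨fun n i => if n = k i then 1 else 0, ?_⟩⟩
  intro v hv
  funext j
  have h := hv (k j)
  rw [dotProduct, Finset.sum_eq_single j] at h
  · simpa using h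
  · intro i _ hij
    show (if k j = k i then (1 : ℂ) else 0) * v i = 0
    rw [if_neg fun h' => hij (hk h').symm, zero_mul]
  · intro h'
    exact absurd (Finset.mem_univ j) h'


lemma kirwan_not_surjective : ¬ Function.Surjective (kirwan G0 mu0 0) := by
  have hx : sheet ptB < 0 := by simp [sheet, ptB]
  have hy : 0 < sheet ptA := by simp [sheet, ptA]
  have h0 : seg ptB ptA 0 = ptB := by
    apply Prod.ext <;> funext i
    · show (1 - ((0 : ℝ) : ℂ)) * ptB.1 i + ((0 : ℝ) : ℂ) * ptA.1 i = ptB.1 i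
      simp
    · show (1 - ((0 : ℝ) : ℂ)) * ptB.2 i + ((0 : ℝ) : ℂ) * ptA.2 i = ptB.2 i
      simp
  have h1 : seg ptB ptA 1 = ptA := by
    apply Prod.ext <;> funext i
    · show (1 - ((1 : ℝ) : ℂ)) * ptB.1 i + ((1 : ℝ) : ℂ) * ptA.1 i = ptA.1 i
      simp
    · show (1 - ((1 : ℝ) : ℂ)) * ptB.2 i + ((1 : ℝ) : ℂ) * ptA.2 i = ptA.2 i
      simp
  exact not_surjective_zero G0 (zeroLevel G0 mu0) sheet sheet_continuous
    (fun g hg p => sheet_smul hg p) sheet_ne_zero ptB ptA ptB_mem ptA_mem hx hy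
    (seg ptB ptA) h0 h1 (Classical.choice EU_nonempty)

theorem result : ∃ (ι : Type) (_ : Fintype ι) (_ : DecidableEq ι)
    (G : Subgroup (Matrix.unitaryGroup ι ℂ)) (μ : Fin 3 → Matrix ι ι ℂ → TA ι → ℝ)
    (d : ℕ) (e : Fin d → Matrix ι ι ℂ),
    IsCompact (G : Set (Matrix.unitaryGroup ι ℂ)) ∧
    IsConnected (G : Set (Matrix.unitaryGroup ι ℂ)) ∧
    IsHyperHamiltonian G μ ∧
    IsOrthonormalBasis G e ∧
    (∀ C : ℝ, IsCompact {p : TA ι | normSqMoment μ e p ≤ C}) ∧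
    (∀ x : TA ι, ∃ K : Set (TA ι), IsCompact K ∧ ∀ (T : ℝ) (c : ℝ → TA ι), c 0 = x →
      IsTrajectory (normSqMoment μ e) T c → ∀ t, 0 ≤ t → t < T → c t ∈ K) ∧
    ¬ Function.Surjective (kirwan G μ 0) :=
  ⟨Fin 2 ⊕ Fin 2, _, _, G0, mu0, 4, e0, G0_compact, G0_connected, mu0_hyper, e0_basis,
    sublevel_compact, compact_trajectories, kirwan_not_surjective⟩


end

end Pool.Agent.Results.MP_146573_gt.FlatCounterexample
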